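import Pool.Agent.L5helper25.PS.Sec
import Pool.Agent.L5helper25.PL.Images2

/-!
Twisted logarithmic forms on the families of superelliptic curves over generic pairs.
-/

set_option autoImplicit false
set_option linter.overlappingInstances false
set_option linter.unusedSectionVars false

open FF Pool.Agent.W602.GT Pool.Agent.W603.LV Pool.Agent.W619.PQ Pool.Agent.N111.GI
open Pool.Agent.W603.PV (pord exists_pord pord_le)
open Pool.Agent.N111.FT (aclo mem_aclo aclo_closed aclo_le aclo_mono map_mem_aclo_iff subset_aclo)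
open Pool.Agent.N95.LQ IntermediateField
open Pool.Agent.L5helper25.PL

namespace Pool.Agent.L5helper25.PS

variable {k : Type} [Field k] [Algebra k ℂ] (X : Pair k ℂ)

/-- Twisted logarithmic forms, for an extension `E` of the field `L`. -/
theorem lines_form₀ {L E : Type} [Field L] [Field E] [Algebra ℂ L] [Algebra ℂ E] [Algebra L E]
    [IsScalarTower ℂ L E] [Algebra.EssFiniteType ℂ L] {xL : Fin (X.n + 1) → L}
    (hxL : X.Point xL) {c0 : Fin (X.n + 1)} (hxLc : xL c0 = 1) (hgenL : coords ℂ xL = ⊤) {w q : ℕ}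
    (hw : Algebra.trdeg ℂ L = w) {t : Fin q → E}
    (ht : IsTranscendenceBasis L t) {ex m μ : ℕ}
    (hd : 0 < w → 2 * X.m + 1 + ex ≤ X.size + w)
    (F : Fin q → BForm ℂ X.n) (p : Fin q → ℕ) {Y : Fin q → E}
    (hΔ : ∀ l, MvPolynomial.aeval (fun i => algebraMap L E (xL i)) (F l).Δ ≠ 0)
    (hv : ∀ l, (F l).val (fun i => algebraMap L E (xL i)) (t l) 1 ≠ 0)
    (hY : ∀ l, (p l = 0 ∧ Y l = 1) ∨ (0 < p l ∧ p l ∣ (F l).e ∧ p l ∣ (F l).b ∧
      Y l ^ p l = (F l).val (fun i => algebraMap L E (xL i)) (t l) 1))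
    (hb : ∀ l, m * max 1 ((F l).b / p l) + 2 + (F l).b / p l ≤ (F l).b)
    (hμ : 1 ≤ μ) (hμe : ∀ l, (F l).e / p l ≤ μ)
    (hm : m * μ + ∑ l, (F l).δ ≤ ex + ∑ l, ((F l).e - (F l).e / p l)) :
    Algebra.trdeg ℂ E = ((w + q : ℕ) : Cardinal) ∧
    ∃ Ω : (Fin (w + q) → Derivation ℂ E E) → E, IsPluri 1 Ω ∧ (∃ D, Ω D ≠ 0) ∧
      ∀ (z : Fin m → Fin (X.n + 1) ⊕ (Fin q ⊕ Fin q)) (Q : Place ℂ E), Divisorial (w + q) Q →
        SecAt (fun Q => BdX X (fun i => algebraMap L E (xL i)) Q ∨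
            BdL F p (fun i => algebraMap L E (xL i)) t Q) Q
          fun D => (∏ j, Sum.elim (fun i => algebraMap L E (xL i)) (Sum.elim t Y) (z j)) * Ω D := by
  classical
  obtain ⟨ω, hω, hωne, hsec⟩ := base X hxL hxLc hgenL hw hd
  obtain ⟨y, EL, hy, hEL⟩ := Pool.Agent.Y172.exists_crd hw
  have htr : Algebra.trdeg ℂ E = ((w + q : ℕ) : Cardinal) := by
    have h1 := trdeg_add_eq ℂ L (A := E)
    have h2 := ht.cardinalMk_eq_trdeg
    rw [Cardinal.mk_fin] at h2
    rw [← h1, hw, ← h2]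
    push_cast
    rfl
  have ht0 : ∀ l, t l ≠ 0 := fun l => (ht.1.ne_zero l)
  refine ⟨htr, Om y EL ω xL F t Y, Om_pluri _ _ _ _ _ _ _, ?_, fun z Q hQ => ?_⟩
  · -- a nonzero value
    have hZ := (hy.sumElim_comp ht).comp_equiv (finSumFinEquiv.symm.trans (Equiv.sumComm _ _))
    choose D hD using fun j => Pool.Agent.W619.PQ.exists_dual (k := ℂ) _ hZ j
    refine ⟨D, ?_⟩
    have h1 : (Matrix.of fun i j => Sum.elim
        (fun k => D i (algebraMap L E (y k))) (fun l => D i (t l)) (finSumFinEquiv.symm j) :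
          Matrix (Fin (w + q)) (Fin (w + q)) E) = 1 := by
      ext i j
      have h2 := hD i j
      rw [Matrix.of_apply, Matrix.one_apply]
      have h3 : (i = j) = (j = i) := propext eq_comm
      simp only [h3]
      rw [← h2]
      simp only [Function.comp_apply, Equiv.trans_apply, Equiv.sumComm_apply]
      rcases finSumFinEquiv.symm j with a | a <;> rfl
    have hωE : ω EL ≠ 0 := by
      obtain ⟨D', hD'⟩ := hωne
      intro h0
      apply hD'
      rw [Pool.Agent.Y172.pluri_coord hy hEL hω D', h0, mul_zero]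
    have h2 : Om y EL ω xL F t Y D = algebraMap L E (ω EL) *
        ∏ l, (algebraMap L E (MvPolynomial.aeval xL (F l).Δ) * Y l /
          (F l).val (fun i => algebraMap L E (xL i)) (t l) 1) := by
      rw [Om, G, h1, Matrix.det_one, one_mul]
    rw [h2]
    refine mul_ne_zero ((_root_.map_ne_zero _).2 hωE) (Finset.prod_ne_zero_iff.2 fun l _ => ?_)
    refine div_ne_zero (mul_ne_zero ?_ ?_) (hv l)
    · rw [← aeval_alg']
      exact hΔ l
    · rcases hY l with ⟨-, h⟩ | ⟨h1, -, -, h⟩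
      · rw [h]
        exact one_ne_zero
      · intro h0
        rw [h0, zero_pow h1.ne'] at h
        exact hv l h.symm
  · have h1 := PS.sec hw htr hy hEL hω hxLc hsec F p ht0 hv hY hb hμ hμe hm z Q hQ
    have h2 : (∃ (P : Place ℂ L) (e : ℕ), BdX X xL P ∧ Over Q P e) →
        BdX X (fun i => algebraMap L E (xL i)) Q := by
      rintro ⟨P, e, h3, h4⟩
      exact bdX_over X h4 hxL.ne h3
    refine ⟨h1.1, fun hn => h1.2 ?_⟩
    rintro (h3 | h3)
    · exact hn (Or.inl (h2 h3))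
    · exact hn (Or.inr h3)

/-- **Twisted logarithmic forms.** -/
theorem lines_form {E : Type} [Field E] [Algebra ℂ E] {x : Fin (X.n + 1) → E} (hx : X.Point x)
    {c0 : Fin (X.n + 1)} (hc0 : x c0 = 1) {w q : ℕ}
    (hw : Algebra.trdeg ℂ (coords ℂ x) = w) {t : Fin q → E}
    (ht : IsTranscendenceBasis (coords ℂ x) t) {ex m μ : ℕ}
    (hd : 0 < w → 2 * X.m + 1 + ex ≤ X.size + w)
    (F : Fin q → BForm ℂ X.n) (p : Fin q → ℕ) {Y : Fin q → E}
    (hΔ : ∀ l, MvPolynomial.aeval x (F l).Δ ≠ 0)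
    (hv : ∀ l, (F l).val x (t l) 1 ≠ 0)
    (hY : ∀ l, (p l = 0 ∧ Y l = 1) ∨ (0 < p l ∧ p l ∣ (F l).e ∧ p l ∣ (F l).b ∧
      Y l ^ p l = (F l).val x (t l) 1))
    (hb : ∀ l, m * max 1 ((F l).b / p l) + 2 + (F l).b / p l ≤ (F l).b)
    (hμ : 1 ≤ μ) (hμe : ∀ l, (F l).e / p l ≤ μ)
    (hm : m * μ + ∑ l, (F l).δ ≤ ex + ∑ l, ((F l).e - (F l).e / p l)) :
    Algebra.trdeg ℂ E = ((w + q : ℕ) : Cardinal) ∧
    ∃ Ω : (Fin (w + q) → Derivation ℂ E E) → E, IsPluri 1 Ω ∧ (∃ D, Ω D ≠ 0) ∧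
      ∀ (z : Fin m → Fin (X.n + 1) ⊕ (Fin q ⊕ Fin q)) (Q : Place ℂ E), Divisorial (w + q) Q →
        SecAt (fun Q => BdX X x Q ∨ BdL F p x t Q) Q
          fun D => (∏ j, Sum.elim x (Sum.elim t Y) (z j)) * Ω D := by
  classical
  have hx0 : x c0 ≠ 0 := by
    rw [hc0]
    exact one_ne_zero
  have hxd : (fun j => x j / x c0) = x := by
    funext j
    rw [hc0, div_one]
  have hmemx : ∀ j, x j ∈ coords ℂ x := by
    intro j
    rw [Pool.Agent.N95.LQ.coords_eq hx0, hxd]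
    exact subset_adjoin _ _ ⟨j, rfl⟩
  obtain ⟨xL, hxE⟩ : ∃ xL : Fin (X.n + 1) → coords ℂ x,
      (fun i => algebraMap (coords ℂ x) E (xL i)) = x := ⟨fun j => ⟨x j, hmemx j⟩, rfl⟩
  have hxLv : ∀ j, ((xL j : coords ℂ x) : E) = x j := fun j => congrFun hxE j
  have hxLc : xL c0 = 1 := Subtype.ext ((hxLv c0).trans hc0)
  have hxL0 : xL c0 ≠ 0 := by
    rw [hxLc]
    exact one_ne_zero
  have hgenL : coords ℂ xL = ⊤ := by
    rw [Pool.Agent.N95.LQ.coords_eq hxL0]
    have h1 : (fun j => xL j / xL c0) = xL := by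
      funext j
      rw [hxLc, div_one]
    rw [h1]
    apply IntermediateField.map_injective (coords ℂ x).val
    rw [← AlgHom.fieldRange_eq_map, IntermediateField.fieldRange_val,
      IntermediateField.adjoin_map, ← Set.range_comp]
    have h2 : (⇑(coords ℂ x).val ∘ xL) = x := hxE
    rw [h2]
    conv_rhs => rw [Pool.Agent.N95.LQ.coords_eq hx0, hxd]
  have hess : Algebra.EssFiniteType ℂ (coords ℂ x) :=
    Pool.Agent.N111.GJ.ess_of_adjoin (Pool.Agent.TH466.QG.adjoin_norm hgenL hxL0)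
  have hxL : X.Point xL := by
    rw [← X.point_map (coords ℂ x).val]
    have h2 : (fun i => (coords ℂ x).val (xL i)) = x := hxE
    rw [h2]
    exact hx
  have h := lines_form₀ X hxL hxLc hgenL hw ht hd F p (Y := Y) (by rw [hxE]; exact hΔ)
    (by rw [hxE]; exact hv) (by rw [hxE]; exact hY) hb hμ hμe hm
  rw [hxE] at h
  exact h

end Pool.Agent.L5helper25.PS
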