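import Pool.Agent.L5helper25.PL.Def

/-!
Proper correspondences from quasi-projective varieties to families of superelliptic curves over
generic pairs.
-/

set_option autoImplicit false
set_option linter.overlappingInstances false

open FF

namespace Pool.Agent.L5helper25.PS

open Pool.Agent.W602.GT (coords)
open Pool.Agent.W603.PV (pord)
open Pool.Agent.N95.LQ (Pair QVar)
open Pool.Agent.L5helper25.PL

/-- A form `Φ (x; u, v)` of degree `p c` in `(u, v)`, whose coefficients are forms of degree `p a` in
`x`, with a form `Δ (x)` as in `BForm`. It defines the family of the curves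
`y ^ p = Φ (x; u, v)`. -/
structure SForm (n : ℕ) where
  /-- the binary form -/
  form : BForm ℂ n
  /-- the exponent -/
  p : ℕ
  pos : 0 < p
  /-- the degree of `y` in `x` -/
  a : ℕ
  /-- the degree of `y` in `(u, v)` -/
  c : ℕ
  e_eq : form.e = p * a
  b_eq : form.b = p * c

/-- The point with homogeneous coordinates `(x; s 0; …; s (r - 1); y 0, …, y (r - 1))` in an extension
of `ℂ`, where `s l = (s l 0, s l 1)` is a point of the `l`-th projective line, lies on the family of
products of superelliptic curves: `x` is on the generic pair `U`, and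
`(y l) ^ (p l) = Φ l (x; s l 0, s l 1)` for all `l`. -/
structure SPoint {k : Type} [Field k] [Algebra k ℂ] (X : Pair k ℂ) {r : ℕ}
    (F : Fin r → SForm X.n) {E : Type} [Field E] [Algebra ℂ E] (x : Fin (X.n + 1) → E)
    (s : Fin r → Fin 2 → E) (y : Fin r → E) : Prop where
  base : X.Point x
  ne : ∀ l, s l ≠ 0
  root : ∀ l, y l ^ (F l).p = (F l).form.val x (s l 0) (s l 1)

/-- The polynomial in the variables `z`, `x`, `s l` and `y l` is homogeneous in `z`, in `x` (where
`y l` has the degree `a l`), and in each of the pairs `s l` (where `y l` has the degree `c l`). -/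
def SMForm {N n r : ℕ} (F : Fin r → SForm n)
    (g : MvPolynomial (Fin (N + 1) ⊕ (Fin (n + 1) ⊕ (Fin r × Fin 2 ⊕ Fin r))) ℂ) : Prop :=
  ∃ (a b : ℕ) (c : Fin r → ℕ),
    ∀ I : Fin (N + 1) ⊕ (Fin (n + 1) ⊕ (Fin r × Fin 2 ⊕ Fin r)) →₀ ℕ, g.coeff I ≠ 0 →
      ∑ i, I (Sum.inl i) = a ∧
      ∑ j, I (Sum.inr (Sum.inl j)) + ∑ l, (F l).a * I (Sum.inr (Sum.inr (Sum.inr l))) = b ∧
      ∀ l, ∑ i, I (Sum.inr (Sum.inr (Sum.inl (l, i)))) +
        (F l).c * I (Sum.inr (Sum.inr (Sum.inr l))) = c l

/-- A closed subset `W` of the product of the quasi-projective variety `M` and of the family of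
products of superelliptic curves. -/
structure SCorres {k : Type} [Field k] [Algebra k ℂ] {N : ℕ} (M : QVar ℂ N) (X : Pair k ℂ)
    {r : ℕ} (F : Fin r → SForm X.n) where
  /-- the equations -/
  G : Set (MvPolynomial (Fin (N + 1) ⊕ (Fin (X.n + 1) ⊕ (Fin r × Fin 2 ⊕ Fin r))) ℂ)
  G_form : ∀ g ∈ G, SMForm F g

section

variable {k : Type} [Field k] [Algebra k ℂ] {N r : ℕ} {M : QVar ℂ N} {X : Pair k ℂ}
  {F : Fin r → SForm X.n} (W : SCorres M X F)

/-- The pair of the points `z` and `(x; s; y)` is on `W`. -/
structure SCorres.Mem {E : Type} [Field E] [Algebra ℂ E] (z : Fin (N + 1) → E)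
    (x : Fin (X.n + 1) → E) (s : Fin r → Fin 2 → E) (y : Fin r → E) : Prop where
  left : M.Mem z
  right : SPoint X F x s y
  eq : ∀ g ∈ W.G,
    MvPolynomial.aeval (Sum.elim z (Sum.elim x (Sum.elim (fun p => s p.1 p.2) y))) g = 0

/-- `W → M` is proper, by the valuative criterion: for all points `(z; x; s; y)` of `W` over fields
`E` and all discrete valuations `P` of `E` over `ℂ`, if the centre of `z` is in `M`, then the centre
of `x` is in `U`. (There is no condition if `U` is projective.) -/
def SCorres.Proper : Prop :=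
  ∀ (E : Type) [Field E] [Algebra ℂ E] (z : Fin (N + 1) → E) (x : Fin (X.n + 1) → E)
    (s : Fin r → Fin 2 → E) (y : Fin r → E), W.Mem z x s y → ∀ P : Place ℂ E, ¬ M.Off z P →
      ∀ b, b ∉ X.C → P.ord (MvPolynomial.aeval x (X.F b)) ≤ X.d b * pord P x

/-- A component of the part of `W` over the closed subvariety `Z` of `M` with function field `E` and
generic point `z` has degree at most `ρ` over `Z`, is generically finite over its image in the family
of superelliptic curves, and is not contained in any `Δ l (x) = 0`: there is a point `(z; x; s; y)` of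
`W` over an extension `E'` of `E` of degree at most `ρ` such that the functions on `Z` are algebraic
over the field generated by the ratios of the coordinates of `x` and of the `s l`, and
`Δ l (x) ≠ 0` for all `l`. -/
def SCorres.GenFinDeg {E : Type} [Field E] [Algebra ℂ E] (z : Fin (N + 1) → E) (ρ : ℕ) : Prop :=
  ∃ (E' : Type) (_ : Field E') (_ : Algebra ℂ E') (_ : Algebra E E') (_ : IsScalarTower ℂ E E')
    (_ : FiniteDimensional E E') (x : Fin (X.n + 1) → E') (s : Fin r → Fin 2 → E')
    (y : Fin r → E'),
    Module.finrank E E' ≤ ρ ∧ W.Mem (fun i => algebraMap E E' (z i)) x s y ∧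
    (∀ i j, z j ≠ 0 → IsAlgebraic (ptField x s) (algebraMap E E' (z i / z j))) ∧
    ∀ l, MvPolynomial.aeval x (F l).form.Δ ≠ 0

/-- The morphism from `W` to the family of superelliptic curves is quasi-finite: for all points
`(z; x; s; y)` of `W` over fields `E`, the ratios of the coordinates of `z` are algebraic over the
field generated by the ratios of the coordinates of `x` and of the `s l`. -/
def SCorres.QuasiFinite : Prop :=
  ∀ (E : Type) [Field E] [Algebra ℂ E] (z : Fin (N + 1) → E) (x : Fin (X.n + 1) → E)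
    (s : Fin r → Fin 2 → E) (y : Fin r → E), W.Mem z x s y →
    ∀ i j, z j ≠ 0 → IsAlgebraic (ptField x s) (z i / z j)

/-- Two systems of homogeneous coordinates give the same point. -/
def Same {n r : ℕ} (F : Fin r → SForm n) {E : Type} [Field E]
    (P Q : (Fin (n + 1) → E) × (Fin r → Fin 2 → E) × (Fin r → E)) : Prop :=
  ∃ (ν : E) (κ : Fin r → E), ν ≠ 0 ∧ (∀ l, κ l ≠ 0) ∧ (∀ j, Q.1 j = ν * P.1 j) ∧
    (∀ l i, Q.2.1 l i = κ l * P.2.1 l i) ∧
    ∀ l, Q.2.2 l = ν ^ (F l).a * κ l ^ (F l).c * P.2.2 l

/-- The geometric fibres of `W → M` have at most `ρ` points: every finite set of points of `W` over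
the same geometric point of `M`, no two of which are equal, has at most `ρ` elements. -/
def SCorres.FibresLE (ρ : ℕ) : Prop :=
  ∀ (Ω : Type) [Field Ω] [Algebra ℂ Ω] [IsAlgClosed Ω] (z : Fin (N + 1) → Ω), M.Mem z →
    ∀ S : Finset ((Fin (X.n + 1) → Ω) × (Fin r → Fin 2 → Ω) × (Fin r → Ω)),
      (∀ P ∈ S, W.Mem z P.1 P.2.1 P.2.2) → (∀ P ∈ S, ∀ Q ∈ S, Same F P Q → P = Q) → S.card ≤ ρ

/-- Some point of `W` over the geometric generic point of the closed subvariety `Z` of `M` with
function field `E` and generic point `z` is such that `Δ l (x) ≠ 0` for all `l`. (If `W → M` is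
surjective, this holds for all `Z` that are not contained in the image of the set of the points of
`W` at which some `Δ l (x)` is zero.) -/
def SCorres.Good {E : Type} [Field E] [Algebra ℂ E] (z : Fin (N + 1) → E) : Prop :=
  ∃ (x : Fin (X.n + 1) → AlgebraicClosure E) (s : Fin r → Fin 2 → AlgebraicClosure E)
    (y : Fin r → AlgebraicClosure E),
    W.Mem (fun i => algebraMap E _ (z i)) x s y ∧
      ∀ l, MvPolynomial.aeval x (F l).form.Δ ≠ 0

end

end Pool.Agent.L5helper25.PS
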