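import Pool.Agent.L5helper25.PS.Str

/-!
Points of correspondences whose geometric fibres are bounded.
-/

set_option autoImplicit false
set_option linter.overlappingInstances false
set_option linter.unusedSectionVars false

open FF IntermediateField

namespace Pool.Agent.L5helper25.PS

open Pool.Agent.W602.GT (coords)
open Pool.Agent.N95.LQ (Pair QVar)
open Pool.Agent.L5helper25.PL

section

variable {k : Type} [Field k] [Algebra k ℂ] {N r : ℕ} {M : QVar ℂ N} {X : Pair k ℂ}
  {F : Fin r → SForm X.n} {W : SCorres M X F}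

/-- the degree of the field of values -/
theorem finrank_le {ρ : ℕ} (hρ : W.FibresLE ρ) {E : Type} [Field E] [Algebra ℂ E]
    {z : Fin (N + 1) → E} {x : Fin (X.n + 1) → AlgebraicClosure E}
    {s : Fin r → Fin 2 → AlgebraicClosure E} {y : Fin r → AlgebraicClosure E}
    {c0 : Fin (X.n + 1)} (hc0 : x c0 = 1)
    {c : Fin r → Fin 2} (hc : ∀ l, s l (c l) = 1)
    (hx : W.Mem (fun i => algebraMap E _ (z i)) x s y) {A : Set (AlgebraicClosure E)}
    (hA : A = Set.range x ∪ ((Set.range fun p : Fin r × Fin 2 => s p.1 p.2) ∪ Set.range y)) :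
    FiniteDimensional E (adjoin E A) ∧ Module.finrank E (adjoin E A) ≤ ρ := by
  classical
  have hcE : CharZero E := charZero_of_injective_algebraMap (algebraMap ℂ E).injective
  have hfin : A.Finite := by
    rw [hA]
    exact (Set.finite_range _).union ((Set.finite_range _).union (Set.finite_range _))
  have hfd : FiniteDimensional E (adjoin E A) := by
    have : Finite ↑A := hfin
    exact IntermediateField.finiteDimensional_adjoin fun x _ => Algebra.IsIntegral.isIntegral x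
  refine ⟨hfd, ?_⟩
  let E' := adjoin E A
  have hxA : ∀ j, x j ∈ A := fun j => by
    rw [hA]
    exact Or.inl ⟨j, rfl⟩
  have hsA : ∀ l i, s l i ∈ A := fun l i => by
    rw [hA]
    exact Or.inr (Or.inl ⟨(l, i), rfl⟩)
  have hyA : ∀ l, y l ∈ A := fun l => by
    rw [hA]
    exact Or.inr (Or.inr ⟨l, rfl⟩)
  obtain ⟨x', hx'⟩ : ∃ x' : Fin (X.n + 1) → E', ∀ j, (x' j : AlgebraicClosure E) = x j :=
    ⟨fun j => ⟨x j, subset_adjoin E _ (hxA j)⟩, fun _ => rfl⟩
  obtain ⟨s', hs'⟩ : ∃ s' : Fin r → Fin 2 → E', ∀ l i, (s' l i : AlgebraicClosure E) = s l i :=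
    ⟨fun l i => ⟨s l i, subset_adjoin E _ (hsA l i)⟩, fun _ _ => rfl⟩
  obtain ⟨y', hy'⟩ : ∃ y' : Fin r → E', ∀ l, (y' l : AlgebraicClosure E) = y l :=
    ⟨fun l => ⟨y l, subset_adjoin E _ (hyA l)⟩, fun _ => rfl⟩
  have hx'c : x' c0 = 1 := Subtype.ext ((hx' c0).trans hc0)
  have hs'c : ∀ l, s' l (c l) = 1 := fun l => Subtype.ext ((hs' l (c l)).trans (hc l))
  have hst : IsScalarTower ℂ E E' := inferInstance
  have hmem : W.Mem (fun i => algebraMap E E' (z i)) x' s' y' := by
    rw [← SCorres.mem_map (E'.val.restrictScalars ℂ)]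
    have h1 : (fun j => (E'.val.restrictScalars ℂ) (x' j)) = x := funext hx'
    have h2 : (fun l i => (E'.val.restrictScalars ℂ) (s' l i)) = s := by
      funext l i
      exact hs' l i
    have h3 : (fun l => (E'.val.restrictScalars ℂ) (y' l)) = y := funext hy'
    rw [h1, h2, h3]
    exact hx
  obtain ⟨f, hf⟩ : ∃ f : (E' →ₐ[E] AlgebraicClosure E) →
      (Fin (X.n + 1) → AlgebraicClosure E) × (Fin r → Fin 2 → AlgebraicClosure E) ×
        (Fin r → AlgebraicClosure E),
      f = fun σ => (fun j => σ (x' j), fun l i => σ (s' l i), fun l => σ (y' l)) := ⟨_, rfl⟩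
  have hinj : Function.Injective f := by
    intro σ τ h
    rw [hf] at h
    obtain ⟨h5, h6⟩ := Prod.mk.inj h
    obtain ⟨h7, h8⟩ := Prod.mk.inj h6
    refine IntermediateField.adjoin_algHom_ext E ?_
    intro a ha
    have ha' := ha
    rw [hA] at ha'
    rcases ha' with ⟨j, hj⟩ | ⟨p, hp⟩ | ⟨l, hl⟩
    · have h9 : (⟨a, subset_adjoin E _ ha⟩ : E') = x' j := Subtype.ext (hj.symm.trans (hx' j).symm)
      rw [h9]
      exact congrFun h5 j
    · have h9 : (⟨a, subset_adjoin E _ ha⟩ : E') = s' p.1 p.2 :=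
        Subtype.ext (hp.symm.trans (hs' p.1 p.2).symm)
      rw [h9]
      exact congrFun (congrFun h7 p.1) p.2
    · have h9 : (⟨a, subset_adjoin E _ ha⟩ : E') = y' l := Subtype.ext (hl.symm.trans (hy' l).symm)
      rw [h9]
      exact congrFun h8 l
  have h1 := hρ (AlgebraicClosure E) (fun i => algebraMap E _ (z i)) hx.left
    (Finset.univ.image f) (fun P hP => ?_) (fun P hP Q hQ hPQ => ?_)
  · rw [Finset.card_image_of_injective _ hinj, Finset.card_univ,
      AlgHom.card E E' (AlgebraicClosure E)] at h1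
    exact h1
  · obtain ⟨σ, -, rfl⟩ := Finset.mem_image.1 hP
    rw [hf]
    have h4 := (SCorres.mem_map (W := W) (σ.restrictScalars ℂ)).2 hmem
    have h5 : (fun i => (σ.restrictScalars ℂ) (algebraMap E E' (z i))) =
        fun i => algebraMap E (AlgebraicClosure E) (z i) := by
      funext i
      exact σ.commutes (z i)
    rw [h5] at h4
    exact h4
  · obtain ⟨σ, -, rfl⟩ := Finset.mem_image.1 hP
    obtain ⟨τ, -, rfl⟩ := Finset.mem_image.1 hQ
    obtain ⟨ν, κ, -, -, h3, h4, h5⟩ := hPQ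
    rw [hf] at h3 h4 h5 ⊢
    simp only at h3 h4 h5
    have hν : ν = 1 := by
      have h6 := h3 c0
      rw [hx'c, map_one, map_one, mul_one] at h6
      exact h6.symm
    have hκ : ∀ l, κ l = 1 := by
      intro l
      have h6 := h4 l (c l)
      rw [hs'c, map_one, map_one, mul_one] at h6
      exact h6.symm
    refine Prod.ext ?_ (Prod.ext ?_ ?_)
    · funext j
      have h6 := h3 j
      rw [hν, one_mul] at h6
      exact h6.symm
    · funext l i
      have h6 := h4 l i
      rw [hκ, one_mul] at h6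
      exact h6.symm
    · funext l
      have h6 := h5 l
      rw [hν, hκ, one_pow, one_pow, one_mul, one_mul] at h6
      exact h6.symm

/-- the point of the correspondence over an extension of degree at most `ρ` -/
theorem ext_of {ρ : ℕ} (hρ : W.FibresLE ρ) {E : Type} [Field E] [Algebra ℂ E]
    {z : Fin (N + 1) → E} {x : Fin (X.n + 1) → AlgebraicClosure E}
    {s : Fin r → Fin 2 → AlgebraicClosure E} {y : Fin r → AlgebraicClosure E}
    (hx : W.Mem (fun i => algebraMap E _ (z i)) x s y)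
    (halg : ∀ i j, z j ≠ 0 →
      IsAlgebraic (ptField x s) (algebraMap E (AlgebraicClosure E) (z i / z j)))
    (hΔ : ∀ l, MvPolynomial.aeval x (F l).form.Δ ≠ 0) : W.GenFinDeg z ρ := by
  classical
  obtain ⟨c0, hc0'⟩ := Function.ne_iff.1 hx.right.base.ne
  have hc0 : x c0 ≠ 0 := hc0'
  choose κ c hκ0 hκc hc1 using fun l => exists_norm (hx.right.ne l)
  obtain ⟨x', hx'⟩ : ∃ x' : Fin (X.n + 1) → AlgebraicClosure E,
    x' = fun j => (x c0)⁻¹ * x j := ⟨_, rfl⟩
  obtain ⟨s', hs'⟩ : ∃ s' : Fin r → Fin 2 → AlgebraicClosure E,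
    s' = fun l i => κ l * s l i := ⟨_, rfl⟩
  obtain ⟨y', hy'⟩ : ∃ y' : Fin r → AlgebraicClosure E,
    y' = fun l => (x c0)⁻¹ ^ (F l).a * κ l ^ (F l).c * y l := ⟨_, rfl⟩
  have hmem : W.Mem (fun i => algebraMap E _ (z i)) x' s' y' := by
    rw [hx', hs', hy']
    exact hx.smul (inv_ne_zero hc0) hκ0
  have hx'c : x' c0 = 1 := by
    rw [hx']
    exact inv_mul_cancel₀ hc0
  have hs'c : ∀ l, s' l (c l) = 1 := fun l => by
    rw [hs']
    exact hκc l
  obtain ⟨A, hA⟩ : ∃ A, A = Set.range x' ∪ ((Set.range fun p : Fin r × Fin 2 => s' p.1 p.2) ∪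
    Set.range y') := ⟨_, rfl⟩
  obtain ⟨hfd, hrk⟩ := finrank_le hρ hx'c hs'c hmem hA
  let E' := adjoin E A
  obtain ⟨x'', hx''⟩ : ∃ x'' : Fin (X.n + 1) → E', ∀ j, (x'' j : AlgebraicClosure E) = x' j :=
    ⟨fun j => ⟨x' j, subset_adjoin E _ (by rw [hA]; exact Or.inl ⟨j, rfl⟩)⟩, fun _ => rfl⟩
  obtain ⟨s'', hs''⟩ : ∃ s'' : Fin r → Fin 2 → E', ∀ l i,
    (s'' l i : AlgebraicClosure E) = s' l i :=
    ⟨fun l i => ⟨s' l i, subset_adjoin E _ (by rw [hA]; exact Or.inr (Or.inl ⟨(l, i), rfl⟩))⟩,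
      fun _ _ => rfl⟩
  obtain ⟨y'', hy''⟩ : ∃ y'' : Fin r → E', ∀ l, (y'' l : AlgebraicClosure E) = y' l :=
    ⟨fun l => ⟨y' l, subset_adjoin E _ (by rw [hA]; exact Or.inr (Or.inr ⟨l, rfl⟩))⟩,
      fun _ => rfl⟩
  have hst : IsScalarTower ℂ E E' := inferInstance
  let ψ : E' →ₐ[ℂ] AlgebraicClosure E := E'.val.restrictScalars ℂ
  have hψx : (fun j => ψ (x'' j)) = x' := funext hx''
  have hψs : (fun l i => ψ (s'' l i)) = s' := by
    funext l i
    exact hs'' l i
  have hψy : (fun l => ψ (y'' l)) = y' := funext hy''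
  refine ⟨E', inferInstance, inferInstance, inferInstance, hst, hfd, x'', s'', y'', hrk, ?_,
    fun i j hj => ?_, fun l h0 => ?_⟩
  · rw [← SCorres.mem_map ψ, hψx, hψs, hψy]
    exact hmem
  · have h1 := halg i j hj
    rw [← ptField_smul x s (inv_ne_zero hc0) hκ0, ← hx', ← hs', ← hψx, ← hψs,
      ← ptField_map ψ] at h1
    obtain ⟨g, hg, hgz⟩ := h1
    obtain ⟨f, hf⟩ : ∃ f, f = (ptField x'' s'').equivMap ψ := ⟨_, rfl⟩
    refine ⟨g.map f.symm.toRingEquiv.toRingHom, ?_, ?_⟩
    · rw [Ne, Polynomial.map_eq_zero]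
      exact hg
    · apply ψ.injective
      rw [map_zero, ← hgz, Polynomial.aeval_def, Polynomial.eval₂_map, Polynomial.aeval_def]
      have h2 := Polynomial.hom_eval₂ g ((algebraMap (ptField x'' s'') E').comp
        f.symm.toRingEquiv.toRingHom) (ψ : E' →+* AlgebraicClosure E)
        (algebraMap E E' (z i / z j))
      refine h2.trans ?_
      congr 1
      ext a
      obtain ⟨b, rfl⟩ := f.surjective a
      have h3 : f.symm.toRingEquiv.toRingHom (f b) = b := f.symm_apply_apply b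
      rw [RingHom.comp_apply, RingHom.comp_apply, h3, hf]
      rfl
  · apply hΔ l
    have h1 := Pool.Agent.N95.LQ.aeval_alg ψ x'' (F l).form.Δ
    rw [hψx, h0, map_zero, hx'] at h1
    have h2 : (fun j => (x c0)⁻¹ * x j) = (x c0)⁻¹ • x := rfl
    rw [h2, Pool.Agent.TH145.MG.aeval_smul (F l).form.Δ_form] at h1
    exact (mul_eq_zero.1 h1).resolve_left (pow_ne_zero _ (inv_ne_zero hc0))

end

end Pool.Agent.L5helper25.PS
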