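import Pool.Agent.L5helper25.PS.Base

/-!
Images of small degree of the subvarieties of families of superelliptic curves over generic pairs.
-/

set_option autoImplicit false
set_option linter.overlappingInstances false
set_option linter.unusedSectionVars false

open FF Pool.Agent.W602.GT Pool.Agent.W603.LV Pool.Agent.W619.PQ Pool.Agent.N111.GI
open Pool.Agent.W603.PV (pord exists_pord pord_le)
open Pool.Agent.N111.FT (aclo mem_aclo aclo_closed aclo_le aclo_mono map_mem_aclo_iff subset_aclo)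
open Pool.Agent.N95.LQ IntermediateField
open Pool.Agent.L5helper25.PL

namespace Pool.Agent.L5helper25.PS

/-- the values at transcendental points of the line -/
theorem val_ne {n : ℕ} (F : BForm ℂ n) {E : Type} [Field E] [Algebra ℂ E] {x : Fin (n + 1) → E}
    {c0 : Fin (n + 1)} (hc0 : x c0 = 1) {t : E} (ht : Transcendental (coords ℂ x) t)
    (hΔ : MvPolynomial.aeval x F.Δ ≠ 0) : F.val x t 1 ≠ 0 := by
  intro h0
  obtain ⟨xL, hxE⟩ : ∃ xL : Fin (n + 1) → coords ℂ x,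
      (fun i => algebraMap (coords ℂ x) E (xL i)) = x := ⟨fun j => ⟨x j, mem_coords hc0 j⟩, rfl⟩
  have h1 := F.val_zero xL t
  rw [hxE, h0] at h1
  obtain ⟨f, hf⟩ : ∃ f, f = (∑ j ∈ Finset.range (F.b + 1), Polynomial.C (F.c j) *
    Polynomial.X ^ j).map (MvPolynomial.aeval xL :
        MvPolynomial (Fin (n + 1)) ℂ →ₐ[ℂ] coords ℂ x).toRingHom := ⟨_, rfl⟩
  rw [← hf] at h1
  have h2 : f = 0 := by
    by_contra hne
    exact ht ⟨f, hne, h1⟩
  obtain ⟨A, B, h⟩ := Ideal.mem_span_pair.1 F.mem₀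
  have h3 := congrArg (Polynomial.map (MvPolynomial.aeval xL :
      MvPolynomial (Fin (n + 1)) ℂ →ₐ[ℂ] coords ℂ x).toRingHom) h
  rw [Polynomial.map_add, Polynomial.map_mul, Polynomial.map_mul, Polynomial.map_C,
      ← Polynomial.derivative_map, ← hf, h2, Polynomial.derivative_zero, mul_zero, mul_zero,
      add_zero] at h3
  have h4 : (MvPolynomial.aeval xL : MvPolynomial (Fin (n + 1)) ℂ →ₐ[ℂ] coords ℂ x).toRingHom
      F.Δ = 0 := Polynomial.C_eq_zero.1 h3.symm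
  apply hΔ
  have h5 : MvPolynomial.aeval (fun i => algebraMap (coords ℂ x) E (xL i)) F.Δ =
      algebraMap (coords ℂ x) E (MvPolynomial.aeval xL F.Δ) := aeval_alg' xL F.Δ
  rw [hxE] at h5
  rw [h5]
  have h6 : MvPolynomial.aeval xL F.Δ = 0 := h4
  rw [h6, map_zero]

variable {k : Type} [Field k] [Algebra k ℂ] (X : Pair k ℂ)

/-- images, for coordinates of lines which are algebraically independent -/
theorem images₁ {E E' : Type} [Field E] [Field E'] [Algebra ℂ E] [Algebra ℂ E'] [Algebra E E']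
    [IsScalarTower ℂ E E'] [FiniteDimensional E E'] [Algebra.EssFiniteType ℂ E] {w q ρ : ℕ}
    (hd : Algebra.trdeg ℂ E = ((w + q : ℕ) : Cardinal)) (hρ : Module.finrank E E' ≤ ρ)
    {x : Fin (X.n + 1) → E'} (hx : X.Point x) {c0 : Fin (X.n + 1)} (hc0 : x c0 = 1)
    (hw : Algebra.trdeg ℂ (coords ℂ x) = w) {t Y : Fin q → E'}
    (hgen : adjoin E (Set.range (Sum.elim x (Sum.elim t Y))) = ⊤)
    (halg : ∀ z, z ∈ aclo ℂ (Set.range (Sum.elim x t))) {ex m μ : ℕ}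
    (hX : 0 < w → 2 * X.m + 1 + ex ≤ X.size + w)
    (F : Fin q → BForm ℂ X.n) (p : Fin q → ℕ)
    (hΔ : ∀ l, MvPolynomial.aeval x (F l).Δ ≠ 0)
    (hv : ∀ l, (F l).val x (t l) 1 ≠ 0)
    (hY : ∀ l, (p l = 0 ∧ Y l = 1) ∨ (0 < p l ∧ p l ∣ (F l).e ∧ p l ∣ (F l).b ∧
      Y l ^ p l = (F l).val x (t l) 1))
    (hb : ∀ l, m * max 1 ((F l).b / p l) + 2 + (F l).b / p l ≤ (F l).b)
    (hμ : 1 ≤ μ) (hμe : ∀ l, (F l).e / p l ≤ μ)
    (hm : m * μ + ∑ l, (F l).δ ≤ ex + ∑ l, ((F l).e - (F l).e / p l)) (hm2 : 2 * ρ ≤ m + 1)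
    {Bd : Place ℂ E → Prop} (hB : ∀ (P : Place ℂ E) (Q : Place ℂ E') (e : ℕ), Over Q P e →
      (BdX X x Q ∨ BdL F p x t Q) → Bd P) : LogGeneralType ℂ E (w + q) Bd := by
  classical
  have hess : Algebra.EssFiniteType ℂ E' := Algebra.EssFiniteType.comp ℂ E E'
  have htr' : Algebra.trdeg ℂ E' = ((w + q : ℕ) : Cardinal) :=
    Pool.Agent.Y172.trdeg_up (K := E) hd
  have htb := tb_of hc0 hw htr' halg
  obtain ⟨-, Ω, hΩ, hne, hreg⟩ := lines_form X hx hc0 hw htb hX F p hΔ hv hY hb hμ hμe hm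
  obtain ⟨e⟩ : Nonempty (Fin (Fintype.card (Fin (X.n + 1) ⊕ (Fin q ⊕ Fin q))) ≃
    Fin (X.n + 1) ⊕ (Fin q ⊕ Fin q)) := ⟨(Fintype.equivFin _).symm⟩
  obtain ⟨ζ, hζ⟩ : ∃ ζ : Fin (Fintype.card (Fin (X.n + 1) ⊕ (Fin q ⊕ Fin q))) → E',
    ζ = Sum.elim x (Sum.elim t Y) ∘ e := ⟨_, rfl⟩
  have hrange : Set.range ζ = Set.range (Sum.elim x (Sum.elim t Y)) := by
    rw [hζ, e.surjective.range_comp]
  refine gt_of (x := ζ) (j0 := e.symm (Sum.inl c0)) (m := m) hd hB ?_ ?_ hΩ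
    (fun f P hP => ?_) (fun τ => ?_) hne (by omega)
  · rw [hζ, Function.comp_apply, Equiv.apply_symm_apply, Sum.elim_inl, hc0]
  · rw [hrange]
    exact hgen
  · have h1 := hreg (fun j => e (f j)) P hP
    rw [hζ]
    exact h1
  · rw [hrange]
    have h1 : Set.range (Sum.elim x t) ⊆ Set.range (Sum.elim x (Sum.elim t Y)) := by
      rintro _ ⟨i | l, rfl⟩
      · exact ⟨Sum.inl i, rfl⟩
      · exact ⟨Sum.inr (Sum.inl l), rfl⟩
    exact mem_aclo.1 (aclo_mono h1 (halg τ))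

/-- **Images of small degree of the subvarieties of families of superelliptic curves over generic
pairs.** -/
theorem images {E E' : Type} [Field E] [Field E'] [Algebra ℂ E] [Algebra ℂ E'] [Algebra E E']
    [IsScalarTower ℂ E E'] [FiniteDimensional E E'] [Algebra.EssFiniteType ℂ E] {d r ρ μ : ℕ}
    (hd : Algebra.trdeg ℂ E = (d : Cardinal)) (hρ : Module.finrank E E' ≤ ρ)
    {x : Fin (X.n + 1) → E'} (hx : X.Point x) {c0 : Fin (X.n + 1)} (hc0 : x c0 = 1)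
    {T Y : Fin r → E'} (halg : ∀ z, z ∈ aclo ℂ (Set.range (Sum.elim x T)))
    (F : Fin r → BForm ℂ X.n) (p : Fin r → ℕ) (hp : ∀ l, 0 < p l)
    (hpe : ∀ l, p l ∣ (F l).e) (hpb : ∀ l, p l ∣ (F l).b)
    (hΔ : ∀ l, MvPolynomial.aeval x (F l).Δ ≠ 0)
    (hY : ∀ l, T l ≠ 0 → Y l ^ p l = (F l).val x (T l) 1)
    (hb : ∀ l, 2 * ρ * ((F l).b / p l) + 2 ≤ (F l).b)
    (hμ : 1 ≤ μ) (hμe : ∀ l, (F l).e / p l ≤ μ)
    (hX : 2 * X.m + 1 + (2 * ρ - 1) * μ + ∑ l, ((F l).δ - ((F l).e - (F l).e / p l)) ≤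
      X.size + max 1 (d - r))
    {Bd : Place ℂ E → Prop} (hB : ∀ (P : Place ℂ E) (Q : Place ℂ E') (e : ℕ), Over Q P e →
      BdX X x Q → Bd P) : LogGeneralType ℂ E d Bd := by
  classical
  have htr' : Algebra.trdeg ℂ E' = (d : Cardinal) := Pool.Agent.Y172.trdeg_up (K := E) hd
  have hpos : 0 < Module.finrank E E' := Module.finrank_pos
  obtain ⟨w, q, ι, hdq, hw, hinj, htb⟩ := exists_sub hc0 htr' halg
  subst hdq
  let E'' : IntermediateField E E' := adjoin E (Set.range (Sum.elim x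
    (Sum.elim (T ∘ ι) (Y ∘ ι))))
  have hst : IsScalarTower ℂ E E'' := inferInstance
  have hst2 : IsScalarTower ℂ E'' E' :=
    IsScalarTower.of_algebraMap_eq fun c => by
      rw [IsScalarTower.algebraMap_apply ℂ E E' c, IsScalarTower.algebraMap_apply ℂ E E'' c]
      rfl
  let ψ : E'' →ₐ[ℂ] E' := E''.val.restrictScalars ℂ
  obtain ⟨x₁, hx₁⟩ : ∃ x₁ : Fin (X.n + 1) → E'', ∀ i, algebraMap E'' E' (x₁ i) = x i :=
    ⟨fun i => ⟨x i, subset_adjoin E _ ⟨Sum.inl i, rfl⟩⟩, fun _ => rfl⟩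
  obtain ⟨t₁, ht₁⟩ : ∃ t₁ : Fin q → E'', ∀ i, algebraMap E'' E' (t₁ i) = T (ι i) :=
    ⟨fun i => ⟨T (ι i), subset_adjoin E _ ⟨Sum.inr (Sum.inl i), rfl⟩⟩, fun _ => rfl⟩
  obtain ⟨Y₁, hY₁⟩ : ∃ Y₁ : Fin q → E'', ∀ i, algebraMap E'' E' (Y₁ i) = Y (ι i) :=
    ⟨fun i => ⟨Y (ι i), subset_adjoin E _ ⟨Sum.inr (Sum.inr i), rfl⟩⟩, fun _ => rfl⟩
  have hx₁' : (fun i => ψ (x₁ i)) = x := funext hx₁
  have hx₁'' : (fun i => algebraMap E'' E' (x₁ i)) = x := funext hx₁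
  have hx₁c : x₁ c0 = 1 := by
    apply (algebraMap E'' E').injective
    rw [hx₁, hc0, map_one]
  have hpt : X.Point x₁ := by
    rw [← X.point_map ψ, hx₁']
    exact hx
  have hw₁ : Algebra.trdeg ℂ (coords ℂ x₁) = w := by
    rw [← trdeg_map ψ, coords_map ψ hx₁c, hx₁', hw]
  have hset : (fun z => algebraMap E'' E' z) '' (Set.range (Sum.elim x₁ (Sum.elim t₁ Y₁))) =
      Set.range (Sum.elim x (Sum.elim (T ∘ ι) (Y ∘ ι))) := by
    rw [← Set.range_comp]
    congr 1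
    funext s
    rcases s with i | l | l
    · exact hx₁ i
    · exact ht₁ l
    · exact hY₁ l
  have hset' : (fun z => algebraMap E'' E' z) '' (Set.range (Sum.elim x₁ t₁)) =
      Set.range (Sum.elim x (T ∘ ι)) := by
    rw [← Set.range_comp]
    congr 1
    funext s
    rcases s with i | l
    · exact hx₁ i
    · exact ht₁ l
  have hgen : adjoin E (Set.range (Sum.elim x₁ (Sum.elim t₁ Y₁))) = ⊤ := by
    apply IntermediateField.map_injective E''.val
    rw [← AlgHom.fieldRange_eq_map, IntermediateField.fieldRange_val,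
      IntermediateField.adjoin_map]
    have h1 : ⇑E''.val '' (Set.range (Sum.elim x₁ (Sum.elim t₁ Y₁))) =
      Set.range (Sum.elim x (Sum.elim (T ∘ ι) (Y ∘ ι))) := hset
    rw [h1]
  have halg₁ : ∀ z, z ∈ aclo ℂ (Set.range (Sum.elim x₁ t₁)) := by
    intro z
    rw [← map_mem_aclo_iff ψ]
    have h1 : ⇑ψ '' (Set.range (Sum.elim x₁ t₁)) = Set.range (Sum.elim x (T ∘ ι)) := hset'
    rw [h1, mem_aclo]
    refine alg_down (coords ℂ x) htb (adjoin ℂ (Set.range (Sum.elim x (T ∘ ι)))) ?_ ?_ _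
    · rw [coords_norm hc0, adjoin_le_iff]
      rintro _ ⟨i, rfl⟩
      exact subset_adjoin _ _ ⟨Sum.inl i, rfl⟩
    · intro i
      exact subset_adjoin _ _ ⟨Sum.inr i, rfl⟩
  have hrk : Module.finrank E E'' ≤ ρ := (Submodule.finrank_le E''.toSubmodule).trans hρ
  have hval : ∀ l, algebraMap E'' E' ((F (ι l)).val x₁ (t₁ l) 1) =
      (F (ι l)).val x (T (ι l)) 1 := by
    intro l
    have h2 := (F (ι l)).val_map ψ x₁ (t₁ l) 1
    rw [map_one, hx₁'] at h2
    rw [← ht₁ l]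
    exact h2.symm
  have ht0 : ∀ l, T (ι l) ≠ 0 := fun l => htb.1.ne_zero l
  have htt : ∀ l, Transcendental (coords ℂ x) (T (ι l)) := fun l => htb.1.transcendental l
  have hqr : q ≤ r := by
    have := Fintype.card_le_of_injective ι hinj
    simpa using this
  have hsum : ∑ l, ((F (ι l)).δ - ((F (ι l)).e - (F (ι l)).e / p (ι l))) ≤
      ∑ l, ((F l).δ - ((F l).e - (F l).e / p l)) := by
    rw [← Finset.sum_image (s := Finset.univ) (g := ι)
      (f := fun l => (F l).δ - ((F l).e - (F l).e / p l)) (fun a _ b _ h => hinj h)]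
    exact Finset.sum_le_sum_of_subset (Finset.subset_univ _)
  obtain ⟨m, hm⟩ : ∃ m, m = 2 * ρ - 1 := ⟨_, rfl⟩
  rw [← hm] at hX
  have hmain : m * μ + ∑ l, (F (ι l)).δ ≤
      (m * μ + ∑ l, ((F (ι l)).δ - ((F (ι l)).e - (F (ι l)).e / p (ι l)))) +
      ∑ l, ((F (ι l)).e - (F (ι l)).e / p (ι l)) := by
    rw [add_assoc, ← Finset.sum_add_distrib]
    refine Nat.add_le_add_left (Finset.sum_le_sum fun l _ => ?_) _
    omega
  refine images₁ X (E' := E'') (ρ := ρ) hd hrk hpt hx₁c hw₁ (t := t₁) (Y := Y₁) hgen halg₁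
    (ex := m * μ + ∑ l, ((F (ι l)).δ - ((F (ι l)).e - (F (ι l)).e / p (ι l)))) (m := m) ?_
    (fun l => F (ι l)) (fun l => p (ι l)) ?_ ?_ ?_ ?_ hμ (fun l => hμe (ι l)) hmain
    (by omega) ?_
  · intro hw0
    have h1 : w + q - r ≤ w := by omega
    have h2 : max 1 (w + q - r) ≤ w := max_le hw0 h1
    omega
  · intro l h0
    apply hΔ (ι l)
    have h1 := Pool.Agent.N95.LQ.aeval_alg ψ x₁ (F (ι l)).Δ
    rw [hx₁', h0, map_zero] at h1
    exact h1
  · intro l h0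
    apply val_ne (F (ι l)) hc0 (htt l) (hΔ (ι l))
    rw [← hval, h0, map_zero]
  · intro l
    refine Or.inr ⟨hp _, hpe _, hpb _, ?_⟩
    apply (algebraMap E'' E').injective
    rw [map_pow, hY₁, hval, hY _ (ht0 l)]
  · intro l
    have h1 := hb (ι l)
    have h2 : 1 ≤ (F (ι l)).b / p (ι l) := by
      have h3 : 0 < (F (ι l)).b := by omega
      exact Nat.div_pos (Nat.le_of_dvd h3 (hpb _)) (hp _)
    rw [max_eq_right h2]
    have h4 : 2 * ρ * ((F (ι l)).b / p (ι l)) =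
        m * ((F (ι l)).b / p (ι l)) + (F (ι l)).b / p (ι l) := by
      have h5 : 2 * ρ = m + 1 := by omega
      rw [h5]
      ring
    omega
  · intro P Q e hPQ h
    have hfd : FiniteDimensional E'' E' := inferInstance
    obtain ⟨R, e', hR⟩ := Pool.Agent.Y172.exists_above (k := ℂ) (K := E'') (L := E') Q
    refine hB P R _ (over_trans hPQ hR) ?_
    rcases h with h | ⟨l, hl, h⟩
    · have h1 := bdX_over X hR hpt.ne h
      rwa [hx₁''] at h1
    · exact absurd hl (hp _).ne'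

end Pool.Agent.L5helper25.PS
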