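import Pool.Agent.L5helper25.PS.Def
import Pool.Agent.L5helper25.PS.Images
import Pool.Agent.L5helper25.PL.Ext

/-!
Closed subvarieties on which a proper correspondence to a family of superelliptic curves is
generically finite are of log general type.
-/

set_option autoImplicit false
set_option linter.overlappingInstances false
set_option linter.unusedSectionVars false

open FF IntermediateField

namespace Pool.Agent.L5helper25.PS

open Pool.Agent.N111.FT (aclo mem_aclo aclo_closed aclo_le aclo_mono map_mem_aclo_iff)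
open Pool.Agent.W602.GT (coords LogGeneralType)
open Pool.Agent.W603.PV (pord exists_pord pord_le)
open Pool.Agent.TH466.QG (alg_over adjoin_norm)
open Pool.Agent.N95.LQ (Pair QVar aeval_alg pord_over off_over)
open Pool.Agent.L5helper25.PL

section basic

variable {k : Type} [Field k] [Algebra k ℂ]

/-- scaling -/
theorem SMForm.smul {E : Type} [Field E] [Algebra ℂ E] {N n r : ℕ} {F : Fin r → SForm n}
    {g : MvPolynomial (Fin (N + 1) ⊕ (Fin (n + 1) ⊕ (Fin r × Fin 2 ⊕ Fin r))) ℂ}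
    (hg : SMForm F g) :
    ∃ (a b : ℕ) (c : Fin r → ℕ), ∀ (μ ν : E) (κ : Fin r → E) (z : Fin (N + 1) → E)
      (x : Fin (n + 1) → E) (s : Fin r → Fin 2 → E) (y : Fin r → E),
      MvPolynomial.aeval (Sum.elim (fun i => μ * z i)
        (Sum.elim (fun j => ν * x j) (Sum.elim (fun p => κ p.1 * s p.1 p.2)
          fun l => ν ^ (F l).a * κ l ^ (F l).c * y l))) g =
        μ ^ a * ν ^ b * (∏ l, κ l ^ c l) *
          MvPolynomial.aeval (Sum.elim z (Sum.elim x (Sum.elim (fun p => s p.1 p.2) y))) g := by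
  obtain ⟨a, b, c, h⟩ := hg
  refine ⟨a, b, c, fun μ ν κ z x s y => ?_⟩
  simp only [MvPolynomial.aeval_def, MvPolynomial.eval₂_eq', Finset.mul_sum]
  refine Finset.sum_congr rfl fun I hI => ?_
  obtain ⟨h1, h2, h3⟩ := h I (MvPolynomial.mem_support_iff.1 hI)
  have h4 : ∏ l, κ l ^ c l = (∏ l, κ l ^ ∑ i, I (Sum.inr (Sum.inr (Sum.inl (l, i))))) *
      ∏ l, κ l ^ ((F l).c * I (Sum.inr (Sum.inr (Sum.inr l)))) := by
    rw [← Finset.prod_mul_distrib]
    refine Finset.prod_congr rfl fun l _ => ?_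
    rw [← h3 l, pow_add]
  rw [h4, ← h1, ← h2, pow_add]
  rw [Fintype.prod_sum_type, Fintype.prod_sum_type, Fintype.prod_sum_type,
    Fintype.prod_sum_type, Fintype.prod_sum_type, Fintype.prod_sum_type,
    Fintype.prod_prod_type, Fintype.prod_prod_type]
  simp only [Sum.elim_inl, Sum.elim_inr, mul_pow, Finset.prod_mul_distrib,
    Finset.prod_pow_eq_pow_sum, ← pow_mul]
  ring

variable {N r : ℕ} {M : QVar ℂ N} {X : Pair k ℂ} {F : Fin r → SForm X.n} {W : SCorres M X F}

theorem SPoint.smul {E : Type} [Field E] [Algebra ℂ E] {x : Fin (X.n + 1) → E}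
    {s : Fin r → Fin 2 → E} {y : Fin r → E} (h : SPoint X F x s y) {ν : E} (hν : ν ≠ 0)
    {κ : Fin r → E} (hκ : ∀ l, κ l ≠ 0) :
    SPoint X F (fun j => ν * x j) (fun l i => κ l * s l i)
      (fun l => ν ^ (F l).a * κ l ^ (F l).c * y l) := by
  refine ⟨h.base.smul hν, fun l h0 => h.ne l ?_, fun l => ?_⟩
  · funext i
    have h1 := congrFun h0 i
    exact (mul_eq_zero.1 h1).resolve_left (hκ l)
  · rw [BForm.val_smul, mul_pow, mul_pow, h.root, (F l).e_eq, (F l).b_eq, ← pow_mul, ← pow_mul,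
      mul_comm (F l).a, mul_comm (F l).c]

theorem SCorres.Mem.smul {E : Type} [Field E] [Algebra ℂ E] {z : Fin (N + 1) → E}
    {x : Fin (X.n + 1) → E} {s : Fin r → Fin 2 → E} {y : Fin r → E} (h : W.Mem z x s y) {ν : E}
    (hν : ν ≠ 0) {κ : Fin r → E} (hκ : ∀ l, κ l ≠ 0) :
    W.Mem z (fun j => ν * x j) (fun l i => κ l * s l i)
      (fun l => ν ^ (F l).a * κ l ^ (F l).c * y l) := by
  refine ⟨h.left, h.right.smul hν hκ, fun g hg => ?_⟩
  obtain ⟨a, b, c, hb⟩ := (W.G_form g hg).smul (E := E)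
  have h1 := hb 1 ν κ z x s y
  simp only [one_mul] at h1
  rw [h1, h.eq g hg, mul_zero]

theorem spoint_map {E E' : Type} [Field E] [Algebra ℂ E] [Field E'] [Algebra ℂ E']
    (ψ : E →ₐ[ℂ] E') {x : Fin (X.n + 1) → E} {s : Fin r → Fin 2 → E} {y : Fin r → E} :
    SPoint X F (fun i => ψ (x i)) (fun l i => ψ (s l i)) (fun l => ψ (y l)) ↔
      SPoint X F x s y := by
  have h1 : ∀ a : E, ψ a = 0 ↔ a = 0 := fun a => map_eq_zero ψ
  constructor
  · rintro ⟨h2, h3, h4⟩
    refine ⟨(X.point_map ψ).1 h2, fun l h => h3 l ?_, fun l => ?_⟩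
    · funext i
      rw [h]
      exact map_zero ψ
    · have h5 := h4 l
      rw [val_alg, ← map_pow] at h5
      exact ψ.injective h5
  · rintro ⟨h2, h3, h4⟩
    refine ⟨(X.point_map ψ).2 h2, fun l h => h3 l ?_, fun l => ?_⟩
    · funext i
      exact (h1 _).1 (congrFun h i)
    · rw [val_alg, ← h4 l, map_pow]

theorem SCorres.mem_map {E E' : Type} [Field E] [Algebra ℂ E] [Field E'] [Algebra ℂ E']
    (ψ : E →ₐ[ℂ] E') {z : Fin (N + 1) → E} {x : Fin (X.n + 1) → E} {s : Fin r → Fin 2 → E}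
    {y : Fin r → E} :
    W.Mem (fun i => ψ (z i)) (fun j => ψ (x j)) (fun l i => ψ (s l i)) (fun l => ψ (y l)) ↔
      W.Mem z x s y := by
  have h0 : (Sum.elim (fun i => ψ (z i)) (Sum.elim (fun j => ψ (x j))
      (Sum.elim (fun p : Fin r × Fin 2 => ψ (s p.1 p.2)) fun l => ψ (y l)))) =
      fun t => ψ (Sum.elim z (Sum.elim x
        (Sum.elim (fun p : Fin r × Fin 2 => s p.1 p.2) y)) t) := by
    funext t
    rcases t with t | t | t | t <;> rfl
  constructor
  · rintro ⟨h1, h2, h3⟩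
    refine ⟨(M.mem_map ψ).1 h1, (spoint_map ψ).1 h2, fun g hg => ?_⟩
    have h4 := h3 g hg
    rw [h0, aeval_alg] at h4
    exact (map_eq_zero ψ).1 h4
  · rintro ⟨h1, h2, h3⟩
    refine ⟨(M.mem_map ψ).2 h1, (spoint_map ψ).2 h2, fun g hg => ?_⟩
    rw [h0, aeval_alg, h3 g hg, map_zero]

end basic

section main

variable {k : Type} [Field k] [Algebra k ℂ] {N r : ℕ} {M : QVar ℂ N} {X : Pair k ℂ}
  {F : Fin r → SForm X.n} {W : SCorres M X F}

/-- **Closed subvarieties on which a proper correspondence is generically finite are of log general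
type**, for a point of the correspondence over an extension of degree at most `ρ`. -/
theorem log_core (hW : W.Proper) {E : Type} [Field E] [Algebra ℂ E]
    {z : Fin (N + 1) → E} {w : ℕ} (hz : M.Sub z w) {K'' : Type} [Field K'']
    [Algebra ℂ K''] [Algebra E K''] [IsScalarTower ℂ E K''] [FiniteDimensional E K''] {ρ μ : ℕ}
    (hρ : Module.finrank E K'' ≤ ρ) {x : Fin (X.n + 1) → K''} {s : Fin r → Fin 2 → K''}
    {y : Fin r → K''} (hx : W.Mem (fun i => algebraMap E K'' (z i)) x s y)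
    (halg : ∀ i j, z j ≠ 0 → IsAlgebraic (ptField x s) (algebraMap E K'' (z i / z j)))
    (hΔ : ∀ l, MvPolynomial.aeval x (F l).form.Δ ≠ 0)
    (hb : ∀ l, 2 * ρ * (F l).c + 2 ≤ (F l).p * (F l).c) (hμ : 1 ≤ μ) (hμa : ∀ l, (F l).a ≤ μ)
    (hd : 2 * X.m + 1 + (2 * ρ - 1) * μ + ∑ l, ((F l).form.δ - ((F l).p - 1) * (F l).a) ≤
      X.size + max 1 (w - r)) :
    M.LogGT z w := by
  classical
  obtain ⟨c0, hc0'⟩ := Function.ne_iff.1 hx.right.base.ne
  have hc0 : x c0 ≠ 0 := hc0'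
  obtain ⟨i0, hi0'⟩ := Function.ne_iff.1 hz.mem.1
  have hi0 : z i0 ≠ 0 := hi0'
  have hgenz := adjoin_norm hz.gen hi0
  have hess : Algebra.EssFiniteType ℂ E := Pool.Agent.N111.GJ.ess_of_adjoin hgenz
  -- the normalized point
  obtain ⟨κ, hκ⟩ : ∃ κ : Fin r → K'', ∀ l, κ l = if s l 1 = 0 then 1 else (s l 1)⁻¹ :=
    ⟨_, fun _ => rfl⟩
  have hκ0 : ∀ l, κ l ≠ 0 := by
    intro l
    rw [hκ]
    split_ifs with h
    · exact one_ne_zero
    · exact inv_ne_zero h
  obtain ⟨x', hx'⟩ : ∃ x' : Fin (X.n + 1) → K'', ∀ j, x' j = (x c0)⁻¹ * x j := ⟨_, fun _ => rfl⟩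
  obtain ⟨s', hs'⟩ : ∃ s' : Fin r → Fin 2 → K'', ∀ l i, s' l i = κ l * s l i :=
    ⟨_, fun _ _ => rfl⟩
  obtain ⟨y', hy'⟩ : ∃ y' : Fin r → K'', ∀ l, y' l =
    (x c0)⁻¹ ^ (F l).a * κ l ^ (F l).c * y l := ⟨_, fun _ => rfl⟩
  have hmem : W.Mem (fun i => algebraMap E K'' (z i)) x' s' y' := by
    have h1 := hx.smul (inv_ne_zero hc0) hκ0
    have h2 : (fun j => (x c0)⁻¹ * x j) = x' := by
      funext j
      exact (hx' j).symm
    have h3 : (fun l i => κ l * s l i) = s' := by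
      funext l i
      exact (hs' l i).symm
    have h4 : (fun l => (x c0)⁻¹ ^ (F l).a * κ l ^ (F l).c * y l) = y' := by
      funext l
      exact (hy' l).symm
    rwa [h2, h3, h4] at h1
  have hx'c : x' c0 = 1 := by
    rw [hx']
    exact inv_mul_cancel₀ hc0
  obtain ⟨T, hT⟩ : ∃ T : Fin r → K'', ∀ l, T l = s l 0 / s l 1 := ⟨_, fun _ => rfl⟩
  have hTs : ∀ l, T l ≠ 0 → s' l 0 = T l ∧ s' l 1 = 1 := by
    intro l hl
    have h1 : s l 1 ≠ 0 := by
      intro h0
      apply hl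
      rw [hT, h0, div_zero]
    rw [hs', hs', hκ, if_neg h1, hT]
    refine ⟨?_, inv_mul_cancel₀ h1⟩
    rw [div_eq_inv_mul]
  have hval : ∀ l, T l ≠ 0 → (F l).form.val x' (s' l 0) (s' l 1) =
      (F l).form.val x' (T l) 1 := by
    intro l hl
    rw [(hTs l hl).1, (hTs l hl).2]
  have hxd : (fun j => x j / x c0) = x' := by
    funext j
    rw [hx', div_eq_inv_mul]
  have hTd : (fun l => s l 0 / s l 1) = T := by
    funext l
    exact (hT l).symm
  have hle : ptField x s ≤ aclo ℂ (Set.range (Sum.elim x' T)) := by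
    have h1 := ptField_le hc0 s
    rw [hxd, hTd] at h1
    exact h1.trans (adjoin_le_iff.2 (Pool.Agent.N111.FT.subset_aclo _))
  have halg' : ∀ y, y ∈ aclo ℂ (Set.range (Sum.elim x' T)) := by
    have h1 : Algebra.IsAlgebraic (ptField x s) K'' :=
      alg_over (E := E) hgenz _ fun i => halg i i0 hi0
    have h2 := Pool.Agent.W602.GT.alg_mono hle h1
    exact fun y => aclo_closed (h2.isAlgebraic y)
  have he : ∀ l, (F l).form.e / (F l).p = (F l).a := fun l => by
    rw [(F l).e_eq, Nat.mul_div_cancel_left _ (F l).pos]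
  have hbb : ∀ l, (F l).form.b / (F l).p = (F l).c := fun l => by
    rw [(F l).b_eq, Nat.mul_div_cancel_left _ (F l).pos]
  have he' : ∀ l, (F l).form.e - (F l).a = ((F l).p - 1) * (F l).a := fun l => by
    rw [(F l).e_eq, Nat.sub_mul, one_mul]
  refine images X (ρ := ρ) (μ := μ) hz.dim hρ hmem.right.base hx'c (Y := y') halg'
    (fun l => (F l).form) (fun l => (F l).p) (fun l => (F l).pos) (fun l => ⟨_, (F l).e_eq⟩)
    (fun l => ⟨_, (F l).b_eq⟩) ?_ (fun l hl => ?_) (fun l => ?_) hμ (fun l => ?_) ?_ ?_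
  · intro l h0
    apply hΔ l
    have h1 : x' = (x c0)⁻¹ • x := by
      funext j
      rw [hx']
      rfl
    rw [h1, Pool.Agent.TH145.MG.aeval_smul (F l).form.Δ_form] at h0
    exact (mul_eq_zero.1 h0).resolve_left (pow_ne_zero _ (inv_ne_zero hc0))
  · rw [hmem.right.root l, hval l hl]
  · rw [hbb, (F l).b_eq]
    exact hb l
  · rw [he]
    exact hμa l
  · simp only [he, he']
    exact hd
  · intro P Q e hPQ h
    by_contra hcon
    have h1 := hW K'' _ _ _ _ hmem Q (fun h => hcon (off_over hPQ hz.mem.1 h))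
    obtain ⟨b, hb, hlt⟩ := h
    have := h1 b hb
    omega

end main

end Pool.Agent.L5helper25.PS
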