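import Pool.Agent.L5helper25.PL.Sec

/-!
Twisted logarithmic forms on the families of superelliptic curves.
-/

set_option autoImplicit false
set_option linter.overlappingInstances false
set_option linter.unusedSectionVars false

open FF Pool.Agent.W602.GT Pool.Agent.W603.LV Pool.Agent.W619.PQ Pool.Agent.N111.GI
open Pool.Agent.W603.PV (pord exists_pord pord_le)
open Pool.Agent.L5helper25.PL

namespace Pool.Agent.L5helper25.PS

variable {L E : Type} [Field L] [Field E] [Algebra ℂ L] [Algebra ℂ E] [Algebra L E]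
  [IsScalarTower ℂ L E] {w q n : ℕ}

/-- **Twisted logarithmic forms on the families of superelliptic curves**, for products with the
coordinates and with the roots. -/
theorem sec [Algebra.EssFiniteType ℂ L] {ex m μ : ℕ} (hL : Algebra.trdeg ℂ L = w)
    (hE : Algebra.trdeg ℂ E = ((w + q : ℕ) : Cardinal)) {y : Fin w → L}
    {EL : Fin w → Derivation ℂ L L} (hy : IsTranscendenceBasis ℂ y)
    (hEL : ∀ i j, EL i (y j) = if i = j then 1 else 0)
    {ω : (Fin w → Derivation ℂ L L) → L} (hω : IsPluri 1 ω) {Bd : Place ℂ L → Prop}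
    {x : Fin (n + 1) → L} {c0 : Fin (n + 1)} (hx : x c0 = 1)
    (hsec : ∀ (f : Fin ex → Fin (n + 1)) (P : Place ℂ L), Divisorial w P →
      SecAt Bd P fun D => (∏ j, x (f j)) * ω D)
    (F : Fin q → BForm ℂ n) (p : Fin q → ℕ) {t Y : Fin q → E} (ht : ∀ l, t l ≠ 0)
    (hv : ∀ l, (F l).val (fun i => algebraMap L E (x i)) (t l) 1 ≠ 0)
    (hY : ∀ l, (p l = 0 ∧ Y l = 1) ∨ (0 < p l ∧ p l ∣ (F l).e ∧ p l ∣ (F l).b ∧
      Y l ^ p l = (F l).val (fun i => algebraMap L E (x i)) (t l) 1))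
    (hb : ∀ l, m * max 1 ((F l).b / p l) + 2 + (F l).b / p l ≤ (F l).b)
    (hμ : 1 ≤ μ) (hμe : ∀ l, (F l).e / p l ≤ μ)
    (hm : m * μ + ∑ l, (F l).δ ≤ ex + ∑ l, ((F l).e - (F l).e / p l))
    (z : Fin m → Fin (n + 1) ⊕ (Fin q ⊕ Fin q)) (Q : Place ℂ E) (hQ : Divisorial (w + q) Q) :
    SecAt (fun Q => (∃ (P : Place ℂ L) (e : ℕ), Bd P ∧ Over Q P e) ∨
      BdL F p (fun i => algebraMap L E (x i)) t Q) Q
      fun D => (∏ j, Sum.elim (fun i => algebraMap L E (x i)) (Sum.elim t Y) (z j)) * Om y EL ω x F t Y D := by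
  classical
  suffices h : ∀ D : Fin (w + q) → Derivation ℂ E E, ((∀ i, DerLog Q (D i)) ∨
      ((¬ ∃ (P : Place ℂ L) (e : ℕ), Bd P ∧ Over Q P e) ∧
        (¬ BdL F p (fun i => algebraMap L E (x i)) t Q) ∧ ∀ i, DerReg Q (D i))) →
      Q.Reg ((∏ j, Sum.elim (fun i => algebraMap L E (x i)) (Sum.elim t Y) (z j)) *
        Om y EL ω x F t Y D) by
    refine ⟨fun D hD => h D (Or.inl hD), fun hn D hD => h D (Or.inr ⟨?_, ?_, hD⟩)⟩
    · exact fun h1 => hn (Or.inl h1)
    · exact fun h1 => hn (Or.inr h1)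
  intro D hD
  -- the coordinate of least order
  have hxne : algebraMap L E (x c0) ≠ 0 := by
    rw [hx, map_one]
    exact one_ne_zero
  obtain ⟨j0, hj0, hj1⟩ := exists_pord Q (f := fun i => algebraMap L E (x i)) ⟨c0, hxne⟩
  obtain ⟨lam, hlam⟩ : ∃ lam, lam = x j0 := ⟨_, rfl⟩
  have hlam0' : algebraMap L E lam ≠ 0 := by rw [hlam]; exact hj0
  have hlam0 : lam ≠ 0 := fun h => hlam0' (by rw [h, map_zero])
  have hord : Q.ord (algebraMap L E lam) = pord Q fun i => algebraMap L E (x i) := by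
    rw [hlam]
    exact hj1
  have hlinv : Q.Reg (algebraMap L E lam)⁻¹ := by
    right
    rw [Q.ord_inv, hord]
    have h1 := pord_le Q (f := fun i => algebraMap L E (x i)) hxne
    rw [hx, map_one, Q.ord_one] at h1
    omega
  obtain ⟨xt, hxt⟩ : ∃ xt : Fin (n + 1) → L, ∀ j, xt j = x j / lam := ⟨_, fun _ => rfl⟩
  have hxx : ∀ j, algebraMap L E (x j) = algebraMap L E lam * algebraMap L E (xt j) := by
    intro j
    rw [hxt, map_div₀]
    field_simp
  have hxr : ∀ j, Q.Reg (algebraMap L E (xt j)) := by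
    intro j
    by_cases h0 : algebraMap L E (x j) = 0
    · left
      rw [hxt, map_div₀, h0, zero_div]
    · right
      rw [hxt, map_div₀, Q.ord_div h0 hlam0', hord]
      have h1 := pord_le Q (f := fun i => algebraMap L E (x i)) h0
      omega
  -- the frame
  have hsec' : ∀ P, Divisorial w P → SecAt Bd P fun D => lam ^ ex * ω D := by
    intro P hP
    have h1 := hsec (fun _ => j0) P hP
    rw [hlam]
    simpa using h1
  obtain ⟨yP, EP, τ, hyP, hEP, hτ, hg, ha⟩ := exists_frame hL hE hy hEL hω (g := lam ^ ex) Q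
    hsec' hQ (D := D) (by
      rcases hD with hD | ⟨h1, -, h2⟩
      · exact Or.inl hD
      · exact Or.inr ⟨h1, h2⟩)
  -- regular functions have regular derivatives
  have hDr : ∀ i {g : E}, Q.Reg g → Q.Reg (D i g) := by
    intro i g hg
    rcases hD with hD | ⟨-, -, h2⟩
    · exact log_reg (hD i) hg
    · exact h2 i g hg
  -- the values at the scaled coordinates
  have hval : ∀ l, (F l).val (fun i => algebraMap L E (x i)) (t l) 1 =
      algebraMap L E lam ^ (F l).e * (F l).val (fun i => algebraMap L E (xt i)) (t l) 1 := by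
    intro l
    have h1 := (F l).val_smul (fun i => algebraMap L E (xt i)) (t l) 1 (algebraMap L E lam) 1
    simp only [one_mul, one_pow, mul_one] at h1
    rw [← h1]
    congr 1
    funext i
    exact hxx i
  -- the charts
  have hch := fun l => exists_chart (F l) Q (p l) hxr (ht l)
    (Y := Y l / algebraMap L E lam ^ ((F l).e / p l)) (by
      rcases hY l with ⟨h1, h2⟩ | ⟨h1, h2, h3, h4⟩
      · left
        refine ⟨h1, ?_⟩
        rw [h2, h1, Nat.div_zero, pow_zero, div_one]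
      · right
        refine ⟨h1, h3, ?_⟩
        rw [div_pow, h4, hval, ← pow_mul, Nat.div_mul_cancel h2]
        have := pow_ne_zero (F l).e hlam0'
        field_simp)
  choose s θ u ε f A B hθ0 hθord htθ hs hε hDt hδ hA hB hu hfv hYu hu2 hfr using hch
  have hf0 : ∀ l, Polynomial.aeval (s l) (f l) ≠ 0 := by
    intro l h0
    apply hv l
    rw [hval, ← hfv, h0, mul_zero, mul_zero]
  -- no contact
  have hcon : ¬ BdL F p (fun i => algebraMap L E (x i)) t Q → ∀ l, p l = 0 →
      Q.Reg (Polynomial.aeval (s l) (f l))⁻¹ := by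
    intro hn l hl
    right
    rw [Q.ord_inv]
    by_contra hcon
    apply hn
    refine ⟨l, hl, ?_⟩
    rw [hval, ← hfv, Q.ord_mul (pow_ne_zero _ hlam0') (mul_ne_zero (pow_ne_zero _ (hθ0 l)) (hf0 l)),
      Q.ord_mul (pow_ne_zero _ (hθ0 l)) (hf0 l), Q.ord_pow, Q.ord_pow, hord, hθord]
    omega
  have hloc := local_reg Q hy hyP hEL hEP hω hτ hg ha hδ hf0 hA hB hu
    (fun i l => hDr i (hs l)) (fun i l => by
      rcases hu2 l with ⟨h1, h2⟩ | ⟨h1, h2⟩
      · rw [h2, one_mul]
        rcases hD with hD | ⟨-, h3, h4⟩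
        · exact hD i _
        · rw [div_eq_mul_inv]
          exact Q.reg_mul (hDr i (hfr l)) (hcon h3 l h1)
      · have hu0 : u l ≠ 0 := by
          intro h0
          apply hf0 l
          rw [← h2, h0, zero_pow h1.ne']
        have h3 : u l * (D i (Polynomial.aeval (s l) (f l)) / Polynomial.aeval (s l) (f l)) =
            algebraMap ℂ E (p l : ℂ) * D i (u l) := by
          rw [← h2, Derivation.leibniz_pow]
          obtain ⟨r, hr⟩ : ∃ r, p l = r + 1 := ⟨p l - 1, by omega⟩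
          rw [hr, Nat.add_sub_cancel, pow_succ]
          simp only [nsmul_eq_mul, smul_eq_mul, map_natCast]
          field_simp
        rw [h3]
        exact Q.reg_mul (Q.reg_const _) (hDr i (hu l)))
  -- the multipliers
  obtain ⟨ν, hν⟩ : ∃ ν : Fin q → ℕ, ∀ l, ν l = max 1 ((F l).b / p l) := ⟨_, fun _ => rfl⟩
  obtain ⟨Θ, hΘ⟩ : ∃ Θ : Fin q → E, ∀ l, Θ l = θ l ^ ν l := ⟨_, fun _ => rfl⟩
  have hΘ0 : ∀ l, Θ l ≠ 0 := fun l => by
    rw [hΘ]
    exact pow_ne_zero _ (hθ0 l)
  obtain ⟨Λ, hΛ⟩ : ∃ Λ, Λ = algebraMap L E lam ^ μ * ∏ l, Θ l := ⟨_, rfl⟩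
  have hP0 : ∏ l, Θ l ≠ 0 := Finset.prod_ne_zero_iff.2 fun l _ => hΘ0 l
  have hΛ0 : Λ ≠ 0 := by
    rw [hΛ]
    exact mul_ne_zero (pow_ne_zero _ hlam0') hP0
  have hθinv : ∀ l, Q.Reg (θ l)⁻¹ := by
    intro l
    right
    rw [Q.ord_inv, hθord]
    have := min_le_left 0 (Q.ord (t l))
    omega
  have hΘinv : ∀ l, Q.Reg (Θ l)⁻¹ := by
    intro l
    rw [hΘ, ← inv_pow]
    exact reg_pow (hθinv l) _
  have hlinvμ : ∀ a ≤ μ, Q.Reg (algebraMap L E lam ^ a / algebraMap L E lam ^ μ) := by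
    intro a ha
    have h1 : algebraMap L E lam ^ a / algebraMap L E lam ^ μ =
        (algebraMap L E lam)⁻¹ ^ (μ - a) := by
      have h2 : algebraMap L E lam ^ μ = algebraMap L E lam ^ a * algebraMap L E lam ^ (μ - a) := by
        rw [← pow_add, Nat.add_sub_cancel' ha]
      have e1 := pow_ne_zero a hlam0'
      have e2 := pow_ne_zero (μ - a) hlam0'
      rw [h2, inv_pow]
      field_simp
    rw [h1]
    exact reg_pow hlinv _
  have hθν : ∀ l, ∀ a ≤ ν l, Q.Reg (θ l ^ a / Θ l) := by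
    intro l a ha
    have h1 : θ l ^ a / Θ l = (θ l)⁻¹ ^ (ν l - a) := by
      have h2 : θ l ^ ν l = θ l ^ a * θ l ^ (ν l - a) := by
        rw [← pow_add, Nat.add_sub_cancel' ha]
      have e1 := pow_ne_zero a (hθ0 l)
      have e2 := pow_ne_zero (ν l - a) (hθ0 l)
      rw [hΘ, h2, inv_pow]
      field_simp
    rw [h1]
    exact reg_pow (hθinv l) _
  have hYl : ∀ l, Y l = u l * θ l ^ ((F l).b / p l) * algebraMap L E lam ^ ((F l).e / p l) := by
    intro l
    rw [← hYu l]
    have := pow_ne_zero ((F l).e / p l) hlam0'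
    field_simp
  have hz : ∀ i, Q.Reg (Sum.elim (fun i => algebraMap L E (x i)) (Sum.elim t Y) i / Λ) := by
    intro i
    rcases i with i | l | l
    · have h1 : Sum.elim (fun i => algebraMap L E (x i)) (Sum.elim t Y) (Sum.inl i) / Λ =
          algebraMap L E (xt i) * (algebraMap L E lam ^ 1 / algebraMap L E lam ^ μ) *
            ∏ l, (Θ l)⁻¹ := by
        rw [Sum.elim_inl, hxx, hΛ, Finset.prod_inv_distrib]
        have := pow_ne_zero μ hlam0'
        field_simp
      rw [h1]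
      exact Q.reg_mul (Q.reg_mul (hxr i) (hlinvμ 1 hμ)) (reg_prod _ fun l _ => hΘinv l)
    · have h1 : Sum.elim (fun i => algebraMap L E (x i)) (Sum.elim t Y) (Sum.inr (Sum.inl l)) / Λ =
          (t l / θ l) * (θ l ^ 1 / Θ l) * (algebraMap L E lam ^ 0 / algebraMap L E lam ^ μ) *
            ∏ j ∈ Finset.univ.erase l, (Θ j)⁻¹ := by
        rw [Sum.elim_inr, Sum.elim_inl, hΛ, Finset.prod_inv_distrib,
          ← Finset.mul_prod_erase Finset.univ Θ (Finset.mem_univ l)]
        have h2 : ∏ j ∈ Finset.univ.erase l, Θ j ≠ 0 :=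
          Finset.prod_ne_zero_iff.2 fun l _ => hΘ0 l
        have e1 := hθ0 l
        have e2 := hΘ0 l
        have e3 := pow_ne_zero μ hlam0'
        field_simp
      rw [h1]
      refine Q.reg_mul (Q.reg_mul (Q.reg_mul (htθ l) (hθν l 1 ?_)) (hlinvμ 0 (Nat.zero_le _)))
        (reg_prod _ fun l _ => hΘinv l)
      rw [hν]
      exact le_max_left _ _
    · have h1 : Sum.elim (fun i => algebraMap L E (x i)) (Sum.elim t Y) (Sum.inr (Sum.inr l)) / Λ =
          u l * (θ l ^ ((F l).b / p l) / Θ l) *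
            (algebraMap L E lam ^ ((F l).e / p l) / algebraMap L E lam ^ μ) *
            ∏ j ∈ Finset.univ.erase l, (Θ j)⁻¹ := by
        rw [Sum.elim_inr, Sum.elim_inr, hΛ, Finset.prod_inv_distrib,
          ← Finset.mul_prod_erase Finset.univ Θ (Finset.mem_univ l), hYl]
        have h2 : ∏ j ∈ Finset.univ.erase l, Θ j ≠ 0 :=
          Finset.prod_ne_zero_iff.2 fun l _ => hΘ0 l
        have e2 := hΘ0 l
        have e3 := pow_ne_zero μ hlam0'
        field_simp
      rw [h1]
      refine Q.reg_mul (Q.reg_mul (Q.reg_mul (hu l) (hθν l _ ?_)) (hlinvμ _ (hμe l)))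
        (reg_prod _ fun l _ => hΘinv l)
      rw [hν]
      exact le_max_right _ _
  have hzr : Q.Reg (∏ j, (Sum.elim (fun i => algebraMap L E (x i)) (Sum.elim t Y) (z j) / Λ)) :=
    reg_prod _ fun j _ => hz (z j)
  -- the exponents
  obtain ⟨β, hβ⟩ : ∃ β : Fin q → ℕ, ∀ l, (F l).b = m * ν l + 2 + (F l).b / p l + β l := by
    refine ⟨fun l => (F l).b - (m * ν l + 2 + (F l).b / p l), fun l => ?_⟩
    refine (Nat.add_sub_cancel' ?_).symm
    rw [hν]
    exact hb l
  obtain ⟨γ, hγ⟩ : ∃ γ : Fin q → ℕ, ∀ l, (F l).e = (F l).e / p l + γ l :=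
    ⟨fun l => (F l).e - (F l).e / p l, fun l =>
      (Nat.add_sub_cancel' (Nat.div_le_self (F l).e (p l))).symm⟩
  have hγ' : ∀ l, (F l).e - (F l).e / p l = γ l := fun l => by
    have := hγ l
    omega
  simp only [hγ'] at hm
  obtain ⟨α, hα⟩ : ∃ α : ℕ, ex + ∑ l, γ l = m * μ + ∑ l, (F l).δ + α :=
    ⟨ex + ∑ l, γ l - (m * μ + ∑ l, (F l).δ), by omega⟩
  -- the columns
  have hG : G (fun i j => D i (algebraMap L E (y j))) (fun i l => D i (t l)) =
      G (fun i j => D i (algebraMap L E (y j))) (fun i l => D i (s l)) *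
        ∏ l, (ε l * θ l ^ 2) := by
    have h1 := G_mul (fun i j => D i (algebraMap L E (y j))) (fun i l => D i (s l)) 1 0
      (fun l => ε l * θ l ^ 2)
    rw [Matrix.det_one, one_mul] at h1
    rw [← h1]
    congr 1
    · funext i j
      rw [Finset.sum_eq_single j]
      · rw [Matrix.one_apply_eq, mul_one]
      · intro b _ hb
        rw [Matrix.one_apply_ne hb, mul_zero]
      · intro h
        exact absurd (Finset.mem_univ _) h
    · funext i l
      simp only [Matrix.zero_apply, mul_zero, Finset.sum_const_zero, zero_add]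
      rw [hDt]
      ring
  have hΔ : ∀ l, algebraMap L E (MvPolynomial.aeval x (F l).Δ) =
      algebraMap L E lam ^ (F l).δ * algebraMap L E (MvPolynomial.aeval xt (F l).Δ) := by
    intro l
    have h1 : x = lam • xt := by
      funext j
      rw [Pi.smul_apply, smul_eq_mul, hxt]
      field_simp
    conv_lhs => rw [h1]
    rw [Pool.Agent.TH145.MG.aeval_smul (F l).Δ_form, map_mul, map_pow]
  have hfac : ∀ l, algebraMap L E (MvPolynomial.aeval x (F l).Δ) * Y l /
      (F l).val (fun i => algebraMap L E (x i)) (t l) 1 * (ε l * θ l ^ 2) =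
      (algebraMap L E (MvPolynomial.aeval xt (F l).Δ) * u l / Polynomial.aeval (s l) (f l)) *
        (ε l * (θ l)⁻¹ ^ β l * (Θ l)⁻¹ ^ m * (algebraMap L E lam ^ (F l).δ *
          (algebraMap L E lam)⁻¹ ^ γ l)) := by
    intro l
    have h2 : θ l ^ (F l).b = Θ l ^ m * θ l ^ 2 * θ l ^ ((F l).b / p l) * θ l ^ β l := by
      rw [hΘ, ← pow_mul, ← pow_add, ← pow_add, ← pow_add, mul_comm (ν l) m, ← hβ]
    have h3 : algebraMap L E lam ^ (F l).e = algebraMap L E lam ^ ((F l).e / p l) *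
        algebraMap L E lam ^ γ l := by
      rw [← pow_add, ← hγ]
    rw [hΔ, hYl, hval, ← hfv, h2, h3]
    have e1 := hf0 l
    have e2 := hθ0 l
    have e3 := hΘ0 l
    simp only [inv_pow]
    field_simp
  have hlamp : algebraMap L E lam ^ (∑ l, (F l).δ) * (algebraMap L E lam)⁻¹ ^ (∑ l, γ l) *
      (algebraMap L E lam ^ μ) ^ m =
        algebraMap L E (lam ^ ex) * (algebraMap L E lam)⁻¹ ^ α := by
    have h1 : algebraMap L E lam ^ ex * algebraMap L E lam ^ (∑ l, γ l) =
        (algebraMap L E lam ^ μ) ^ m * algebraMap L E lam ^ (∑ l, (F l).δ) *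
          algebraMap L E lam ^ α := by
      rw [← pow_mul, ← pow_add, ← pow_add, ← pow_add, hα, mul_comm μ m]
    rw [map_pow, inv_pow, inv_pow]
    have e1 := pow_ne_zero (∑ l, γ l) hlam0'
    have e2 := pow_ne_zero α hlam0'
    field_simp
    linear_combination -h1
  have hfin : (∏ j, Sum.elim (fun i => algebraMap L E (x i)) (Sum.elim t Y) (z j)) *
      Om y EL ω x F t Y D =
      (G (fun i j => D i (algebraMap L E (y j))) (fun i l => D i (s l)) *
        algebraMap L E (lam ^ ex * ω EL) *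
        ∏ l, (algebraMap L E (MvPolynomial.aeval xt (F l).Δ) * u l /
          Polynomial.aeval (s l) (f l))) *
      ((∏ j, (Sum.elim (fun i => algebraMap L E (x i)) (Sum.elim t Y) (z j) / Λ)) *
        (∏ l, ε l) * (∏ l, (θ l)⁻¹ ^ β l) * (algebraMap L E lam)⁻¹ ^ α) := by
    have e1 : ∏ j, Sum.elim (fun i => algebraMap L E (x i)) (Sum.elim t Y) (z j) =
        (∏ j, (Sum.elim (fun i => algebraMap L E (x i)) (Sum.elim t Y) (z j) / Λ)) * Λ ^ m := by
      rw [Finset.prod_div_distrib, Finset.prod_const, Finset.card_univ, Fintype.card_fin]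
      have := pow_ne_zero m hΛ0
      field_simp
    have e2 : Om y EL ω x F t Y D =
        G (fun i j => D i (algebraMap L E (y j))) (fun i l => D i (s l)) *
          algebraMap L E (ω EL) *
          ∏ l, (algebraMap L E (MvPolynomial.aeval x (F l).Δ) * Y l /
            (F l).val (fun i => algebraMap L E (x i)) (t l) 1 * (ε l * θ l ^ 2)) := by
      rw [Om, hG, Finset.prod_mul_distrib (f := fun l => algebraMap L E
        (MvPolynomial.aeval x (F l).Δ) * Y l / (F l).val (fun i => algebraMap L E (x i)) (t l) 1)]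
      ring
    obtain ⟨Z, hZ⟩ : ∃ Z, Z = ∏ j, (Sum.elim (fun i => algebraMap L E (x i)) (Sum.elim t Y) (z j) /
      Λ) := ⟨_, rfl⟩
    rw [e1, e2, Finset.prod_congr rfl fun l _ => hfac l, Finset.prod_mul_distrib,
      Finset.prod_mul_distrib, Finset.prod_mul_distrib, Finset.prod_mul_distrib,
      Finset.prod_mul_distrib, Finset.prod_pow_eq_pow_sum, Finset.prod_pow_eq_pow_sum,
      Finset.prod_pow (f := fun l => (Θ l)⁻¹), ← hZ, hΛ, mul_pow, map_mul,
      Finset.prod_inv_distrib]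
    have hPm : (∏ l, Θ l) ^ m * (∏ l, Θ l)⁻¹ ^ m = 1 := by
      rw [← mul_pow, mul_inv_cancel₀ hP0, one_pow]
    linear_combination (Z * (algebraMap L E lam ^ μ) ^ m *
        G (fun i j => D i (algebraMap L E (y j))) (fun i l => D i (s l)) *
        algebraMap L E (ω EL) *
        (∏ l, (algebraMap L E (MvPolynomial.aeval xt (F l).Δ) * u l /
          Polynomial.aeval (s l) (f l))) * (∏ l, ε l) * (∏ l, (θ l)⁻¹ ^ β l) *
        algebraMap L E lam ^ (∑ l, (F l).δ) * (algebraMap L E lam)⁻¹ ^ (∑ l, γ l)) * hPm +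
      (Z * G (fun i j => D i (algebraMap L E (y j))) (fun i l => D i (s l)) *
        algebraMap L E (ω EL) *
        (∏ l, (algebraMap L E (MvPolynomial.aeval xt (F l).Δ) * u l /
          Polynomial.aeval (s l) (f l))) * (∏ l, ε l) * (∏ l, (θ l)⁻¹ ^ β l)) * hlamp
  rw [hfin]
  refine Q.reg_mul hloc (Q.reg_mul (Q.reg_mul (Q.reg_mul hzr (reg_prod _ fun l _ => hε l))
    (reg_prod _ fun l _ => reg_pow (hθinv l) _)) (reg_pow hlinv _))

end Pool.Agent.L5helper25.PS
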