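import Pool.Agent.L5helper25.PS.Log

/-!
Subvarieties on which a proper correspondence to a family of superelliptic curves is generically
finite are strongly of log general type.
-/

set_option autoImplicit false
set_option linter.overlappingInstances false
set_option linter.unusedSectionVars false

open FF IntermediateField

namespace Pool.Agent.L5helper25.PS

open Pool.Agent.N111.FT (aclo mem_aclo aclo_closed aclo_le aclo_mono map_mem_aclo_iff)
open Pool.Agent.W602.GT (coords LogGeneralType IsForm val)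
open Pool.Agent.W603.PV (pord)
open Pool.Agent.TH466.QG (alg_over adjoin_norm alg_spec spread Sp hz_form val_hz)
open Pool.Agent.N95.LQ (Pair QVar aeval_alg pord_over off_over sp_aeval)
open Pool.Agent.L5helper25.PL

section

variable {k : Type} [Field k] [Algebra k ℂ] {N r : ℕ} {M : QVar ℂ N} {X : Pair k ℂ}
  {F : Fin r → SForm X.n} {W : SCorres M X F}

/-- the spreading out of a point of the correspondence -/
theorem spread_pt {E : Type} [Field E] [Algebra ℂ E]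
    {z : Fin (N + 1) → E} {w : ℕ} (hz : M.Sub z w) {K'' : Type} [Field K'']
    [Algebra ℂ K''] [Algebra E K''] [IsScalarTower ℂ E K''] [FiniteDimensional E K'']
    {x : Fin (X.n + 1) → K''} {s : Fin r → Fin 2 → K''} {y : Fin r → K''}
    (hx : W.Mem (fun i => algebraMap E K'' (z i)) x s y)
    (halg : ∀ i j, z j ≠ 0 → IsAlgebraic (ptField x s) (algebraMap E K'' (z i / z j)))
    (hΔ : ∀ l, MvPolynomial.aeval x (F l).form.Δ ≠ 0) :
    ∃ G : MvPolynomial (Fin (N + 1)) ℂ, (∃ e, G.IsHomogeneous e) ∧ MvPolynomial.aeval z G ≠ 0 ∧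
    ∀ (E₁ : Type) [Field E₁] [Algebra ℂ E₁] (w₁ : ℕ) (z₁ : Fin (N + 1) → E₁), M.Sub z₁ w₁ →
      (∀ (F : MvPolynomial (Fin (N + 1)) ℂ) (e : ℕ), F.IsHomogeneous e →
        MvPolynomial.aeval z F = 0 → MvPolynomial.aeval z₁ F = 0) →
      MvPolynomial.aeval z₁ G ≠ 0 →
      ∃ (K₁ : Type) (_ : Field K₁) (_ : Algebra ℂ K₁) (_ : Algebra E₁ K₁)
        (_ : IsScalarTower ℂ E₁ K₁) (_ : FiniteDimensional E₁ K₁) (x₁ : Fin (X.n + 1) → K₁)
        (s₁ : Fin r → Fin 2 → K₁) (y₁ : Fin r → K₁),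
        Module.finrank E₁ K₁ ≤ Module.finrank E K'' ∧
        W.Mem (fun i => algebraMap E₁ K₁ (z₁ i)) x₁ s₁ y₁ ∧
        (∀ i j, z₁ j ≠ 0 → IsAlgebraic (ptField x₁ s₁) (algebraMap E₁ K₁ (z₁ i / z₁ j))) ∧
        ∀ l, MvPolynomial.aeval x₁ (F l).form.Δ ≠ 0 := by
  classical
  obtain ⟨c0, hc0'⟩ := Function.ne_iff.1 hx.right.base.ne
  have hc0 : x c0 ≠ 0 := hc0'
  obtain ⟨i0, hi0'⟩ := Function.ne_iff.1 hz.mem.1
  have hi0 : z i0 ≠ 0 := hi0'
  have hgenz := adjoin_norm hz.gen hi0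
  -- the normalized point
  choose κ c hκ0 hκc hc1 using fun l => exists_norm (hx.right.ne l)
  obtain ⟨x', hx'⟩ : ∃ x' : Fin (X.n + 1) → K'', ∀ j, x' j = (x c0)⁻¹ * x j := ⟨_, fun _ => rfl⟩
  obtain ⟨s', hs'⟩ : ∃ s' : Fin r → Fin 2 → K'', ∀ l i, s' l i = κ l * s l i :=
    ⟨_, fun _ _ => rfl⟩
  obtain ⟨y', hy'⟩ : ∃ y' : Fin r → K'', ∀ l, y' l =
    (x c0)⁻¹ ^ (F l).a * κ l ^ (F l).c * y l := ⟨_, fun _ => rfl⟩
  have hmem : W.Mem (fun i => algebraMap E K'' (z i)) x' s' y' := by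
    have h1 := hx.smul (inv_ne_zero hc0) hκ0
    have h2 : (fun j => (x c0)⁻¹ * x j) = x' := by
      funext j
      exact (hx' j).symm
    have h3 : (fun l i => κ l * s l i) = s' := by
      funext l i
      exact (hs' l i).symm
    have h4 : (fun l => (x c0)⁻¹ ^ (F l).a * κ l ^ (F l).c * y l) = y' := by
      funext l
      exact (hy' l).symm
    rwa [h2, h3, h4] at h1
  have hx'c : x' c0 = 1 := by
    rw [hx']
    exact inv_mul_cancel₀ hc0
  have hs'c : ∀ l, s' l (c l) = 1 := fun l => by rw [hs', hκc]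
  have hs'1 : ∀ l, s' l 1 = 1 ∨ s' l 1 = 0 := by
    intro l
    rcases hc1 l with h | h
    · left
      have := hs'c l
      rwa [h] at this
    · right
      rw [hs', h, mul_zero]
  have hΔ' : ∀ l, MvPolynomial.aeval x' (F l).form.Δ ≠ 0 := by
    intro l h0
    apply hΔ l
    have h1 : x' = (x c0)⁻¹ • x := by
      funext j
      rw [hx']
      rfl
    rw [h1, Pool.Agent.TH145.MG.aeval_smul (F l).form.Δ_form] at h0
    exact (mul_eq_zero.1 h0).resolve_left (pow_ne_zero _ (inv_ne_zero hc0))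
  -- one vector of coordinates
  obtain ⟨e⟩ : Nonempty (Fin (X.n + r + 1) ≃ Fin (X.n + 1) ⊕ Fin r) :=
    ⟨(finCongr (by omega)).trans finSumFinEquiv.symm⟩
  obtain ⟨Y, hY⟩ : ∃ Y : Fin (X.n + r + 1) → K'', Y = Sum.elim x' (fun l => s' l 0 / s' l 1) ∘ e :=
    ⟨_, rfl⟩
  have hYc : Y (e.symm (Sum.inl c0)) = 1 := by
    rw [hY, Function.comp_apply, Equiv.apply_symm_apply, Sum.elim_inl, hx'c]
  have hYr : Set.range Y = Set.range (Sum.elim x' fun l => s' l 0 / s' l 1) := by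
    rw [hY, e.surjective.range_comp]
  have hYf : coords ℂ Y = adjoin ℂ (Set.range (Sum.elim x' fun l => s' l 0 / s' l 1)) := by
    rw [coords_norm hYc, hYr]
  have hle : ptField x s ≤ coords ℂ Y := by
    have h1 := ptField_le hc0 s
    have hxd : (fun j => x j / x c0) = x' := by
      funext j
      rw [hx', div_eq_inv_mul]
    have hTd : (fun l => s l 0 / s l 1) = fun l => s' l 0 / s' l 1 := by
      funext l
      rw [hs', hs', mul_div_mul_left _ _ (hκ0 l)]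
    rw [hxd, hTd] at h1
    rw [hYf]
    exact h1
  have hKalg : Algebra.IsAlgebraic (coords ℂ Y) K'' := by
    have h1 : Algebra.IsAlgebraic (ptField x s) K'' :=
      alg_over (E := E) hgenz _ fun i => halg i i0 hi0
    exact Pool.Agent.W602.GT.alg_mono hle h1
  have hmemY : ∀ j, Y j ∈ coords ℂ Y := fun j => mem_coords hYc j
  let v : Fin (X.n + r + 1) → coords ℂ Y := fun j => ⟨Y j, hmemY j⟩
  have hyc : v (e.symm (Sum.inl c0)) = 1 := Subtype.ext hYc
  have hy0 : v (e.symm (Sum.inl c0)) ≠ 0 := by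
    rw [hyc]
    exact one_ne_zero
  have hgeny : coords ℂ v = ⊤ := by
    rw [coords_norm hyc]
    apply IntermediateField.map_injective (coords ℂ Y).val
    rw [← AlgHom.fieldRange_eq_map, IntermediateField.fieldRange_val,
      IntermediateField.adjoin_map, ← Set.range_comp]
    have h2 : (⇑(coords ℂ Y).val ∘ v) = Y := rfl
    rw [h2, ← coords_norm hYc]
  obtain ⟨Θ2, hΘ2, halgs⟩ := alg_spec (K' := K'') hgeny hy0
    (fun m : Fin (N + 1) => algebraMap E K'' (z m / z i0))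
  obtain ⟨H, hH, hspread⟩ := spread (K' := K'') hgenz
    (Θ := algebraMap (coords ℂ Y) K'' '' Θ2 ∪ (Set.range x' ∪
      (Set.range (fun p : Fin r × Fin 2 => s' p.1 p.2) ∪
      ((Set.range fun b : X.A => (MvPolynomial.aeval x' (X.F b))⁻¹) ∪
      ((Set.range y') ∪
      Set.range fun l => (MvPolynomial.aeval x' (F l).form.Δ)⁻¹)))))
    ((hΘ2.image _).union ((Set.finite_range _).union ((Set.finite_range _).union
      ((Set.finite_range _).union ((Set.finite_range _).union (Set.finite_range _))))))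
  refine ⟨MvPolynomial.X i0 * Pool.Agent.TH466.QG.hz i0 H, ?_, ?_, ?_⟩
  · obtain ⟨d, hd⟩ := hz_form i0 H
    exact ⟨1 + d, (MvPolynomial.isHomogeneous_X ℂ i0).mul hd⟩
  · rw [map_mul, MvPolynomial.aeval_X]
    refine mul_ne_zero hi0 ?_
    change val z _ ≠ 0
    rw [val_hz H hi0]
    exact mul_ne_zero (pow_ne_zero _ hi0) hH
  intro E₁ _ _ w₁ z₁ hz₁ hzz hzG
  rw [map_mul, MvPolynomial.aeval_X] at hzG
  have hz1 : z₁ i0 ≠ 0 := left_ne_zero_of_mul hzG
  have hzH : MvPolynomial.aeval (fun i => z₁ i / z₁ i0) H ≠ 0 := by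
    have h1 : val z₁ (Pool.Agent.TH466.QG.hz i0 H) ≠ 0 := right_ne_zero_of_mul hzG
    rw [val_hz H hz1] at h1
    exact right_ne_zero_of_mul h1
  have hsp : ∀ G : MvPolynomial (Fin (N + 1)) ℂ,
      MvPolynomial.aeval (fun i => z i / z i0) G = 0 →
      MvPolynomial.aeval (fun i => z₁ i / z₁ i0) G = 0 := by
    intro G hG
    have h1 : val z (Pool.Agent.TH466.QG.hz i0 G) = 0 := by
      rw [val_hz G hi0, hG, mul_zero]
    obtain ⟨e, he⟩ := hz_form i0 G
    have h2 : val z₁ (Pool.Agent.TH466.QG.hz i0 G) = 0 := hzz _ e he h1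
    rw [val_hz G hz1] at h2
    exact (mul_eq_zero.1 h2).resolve_left (pow_ne_zero _ hz1)
  obtain ⟨K₁, i1, i2, i3, i4, i5, hrk, S, hSz, hSΘ⟩ := hspread E₁
    (fun i => z₁ i / z₁ i0) hsp hzH
  have hSx : ∀ j, ∃ t, S.T (x' j) t := fun j => hSΘ _ (Or.inr (Or.inl ⟨j, rfl⟩))
  have hSs : ∀ l i, ∃ t, S.T (s' l i) t := fun l i =>
    hSΘ _ (Or.inr (Or.inr (Or.inl ⟨(l, i), rfl⟩)))
  have hSy : ∀ l, ∃ t, S.T (y' l) t := fun l =>
    hSΘ _ (Or.inr (Or.inr (Or.inr (Or.inr (Or.inl ⟨l, rfl⟩)))))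
  choose x₁ hx₁ using hSx
  choose s₁ hs₁ using hSs
  choose y₁ hy₁ using hSy
  have hx₁c : x₁ c0 = 1 := by
    have h1 := hx₁ c0
    rw [hx'c] at h1
    exact S.ext h1 S.one
  have hs₁c : ∀ l, s₁ l (c l) = 1 := by
    intro l
    have h1 := hs₁ l (c l)
    rw [hs'c] at h1
    exact S.ext h1 S.one
  have hpt : X.Point x₁ := by
    refine ⟨fun h => ?_, fun f hf => ?_, fun c hc => ?_, fun b hb => ?_⟩
    · rw [h] at hx₁c
      exact zero_ne_one hx₁c
    · exact S.eq_zero (sp_aeval S hx₁ _) (hmem.right.base.mem_V f hf)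
    · exact S.eq_zero (sp_aeval S hx₁ _) (hmem.right.base.mem_C c hc)
    · exact S.ne_zero (sp_aeval S hx₁ (X.F b))
        (hSΘ _ (Or.inr (Or.inr (Or.inr (Or.inl ⟨b, rfl⟩)))))
        (hmem.right.base.notMem b hb)
  have hlpt : SPoint X F x₁ s₁ y₁ := by
    refine ⟨hpt, fun l h => ?_, fun l => ?_⟩
    · have h1 := hs₁c l
      rw [h] at h1
      exact zero_ne_one h1
    · have h1 := S.pow (hy₁ l) (F l).p
      rw [hmem.right.root l] at h1
      exact S.ext h1 (sp_val (F l).form S hx₁ (hs₁ l 0) (hs₁ l 1))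
  refine ⟨K₁, i1, i2, i3, i4, i5, x₁, s₁, y₁, hrk, ⟨?_, hlpt, fun g hg => ?_⟩, ?_, fun l => ?_⟩
  · exact (M.mem_map (IsScalarTower.toAlgHom ℂ E₁ K₁)).2 hz₁.mem
  · obtain ⟨a, b, c, hab⟩ := (W.G_form g hg).smul (E := K'')
    obtain ⟨a', b', c', hab'⟩ := (W.G_form g hg).smul (E := K₁)
    have h1 : MvPolynomial.aeval (Sum.elim (fun i => algebraMap E K'' (z i / z i0))
        (Sum.elim x' (Sum.elim (fun p => s' p.1 p.2) y'))) g = 0 := by
      have h2 := hab (algebraMap E K'' (z i0))⁻¹ 1 (fun _ => 1)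
        (fun i => algebraMap E K'' (z i)) x' s' y'
      rw [hmem.eq g hg, mul_zero] at h2
      simp only [one_mul, one_pow] at h2
      have h3 : (fun i => algebraMap E K'' (z i / z i0)) =
          fun i => (algebraMap E K'' (z i0))⁻¹ * algebraMap E K'' (z i) := by
        funext i
        rw [map_div₀, div_eq_inv_mul]
      rw [h3]
      exact h2
    have h2 : MvPolynomial.aeval (Sum.elim (fun i => algebraMap E₁ K₁ (z₁ i / z₁ i0))
        (Sum.elim x₁ (Sum.elim (fun p => s₁ p.1 p.2) y₁))) g = 0 := by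
      refine S.eq_zero (sp_aeval S (fun t => ?_) g) h1
      rcases t with i | j | p | l
      · exact hSz i
      · exact hx₁ j
      · exact hs₁ p.1 p.2
      · exact hy₁ l
    have h3 := hab' (algebraMap E₁ K₁ (z₁ i0)) 1 (fun _ => 1)
      (fun i => algebraMap E₁ K₁ (z₁ i / z₁ i0)) x₁ s₁ y₁
    rw [h2, mul_zero] at h3
    simp only [one_mul, one_pow] at h3
    have h4 : (fun i => algebraMap E₁ K₁ (z₁ i0) * algebraMap E₁ K₁ (z₁ i / z₁ i0)) =
        fun i => algebraMap E₁ K₁ (z₁ i) := by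
      funext i
      rw [← map_mul, mul_div_cancel₀ _ hz1]
    rw [h4] at h3
    exact h3
  · intro i j hj
    obtain ⟨Y₁, hY₁⟩ : ∃ Y₁ : Fin (X.n + r + 1) → K₁,
      Y₁ = Sum.elim x₁ (fun l => s₁ l 0 / s₁ l 1) ∘ e := ⟨_, rfl⟩
    have hSY : ∀ j, S.T (Y j) (Y₁ j) := by
      intro j
      rw [hY, hY₁, Function.comp_apply, Function.comp_apply]
      rcases e j with i | l
      · exact hx₁ i
      · rw [Sum.elim_inr, Sum.elim_inr]
        rcases hs'1 l with h | h
        · have h1 : s₁ l 1 = 1 := by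
            have h2 := hs₁ l 1
            rw [h] at h2
            exact S.ext h2 S.one
          rw [h, h1, div_one, div_one]
          exact hs₁ l 0
        · have h1 : s₁ l 1 = 0 := S.eq_zero (hs₁ l 1) h
          rw [h, h1, div_zero, div_zero]
          exact S.zero
    have h1 : ∀ m, IsAlgebraic (coords ℂ Y₁) (algebraMap E₁ K₁ (z₁ m / z₁ i0)) := by
      intro m
      exact halgs K₁ S (fun ϑ hϑ => hSΘ _ (Or.inl ⟨ϑ, hϑ, rfl⟩)) Y₁ hSY
        (fun m => algebraMap E₁ K₁ (z₁ m / z₁ i0)) hSz m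
    have hY₁c : Y₁ (e.symm (Sum.inl c0)) = 1 := by
      rw [hY₁, Function.comp_apply, Equiv.apply_symm_apply, Sum.elim_inl, hx₁c]
    have hle₁ : coords ℂ Y₁ ≤ ptField x₁ s₁ := by
      rw [coords_norm hY₁c, adjoin_le_iff]
      rintro _ ⟨j, rfl⟩
      rw [hY₁]
      exact ratio_mem hx₁c s₁ (e j)
    have h1' : ∀ m, IsAlgebraic (ptField x₁ s₁) (algebraMap E₁ K₁ (z₁ m / z₁ i0)) := by
      intro m
      have h2 : algebraMap E₁ K₁ (z₁ m / z₁ i0) ∈
          aclo ℂ ((coords ℂ Y₁ : IntermediateField ℂ K₁) : Set K₁) := by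
        rw [mem_aclo, adjoin_self]
        exact h1 m
      have h3 : algebraMap E₁ K₁ (z₁ m / z₁ i0) ∈
          aclo ℂ ((ptField x₁ s₁ : IntermediateField ℂ K₁) : Set K₁) := aclo_mono hle₁ h2
      rw [mem_aclo, adjoin_self] at h3
      exact h3
    have h2 : algebraMap E₁ K₁ (z₁ i / z₁ j) =
        algebraMap E₁ K₁ (z₁ i / z₁ i0) / algebraMap E₁ K₁ (z₁ j / z₁ i0) := by
      rw [← map_div₀]
      congr 1
      field_simp
    rw [h2, div_eq_mul_inv]
    exact (h1' i).mul (h1' j).inv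
  · exact S.ne_zero (sp_aeval S hx₁ (F l).form.Δ)
      (hSΘ _ (Or.inr (Or.inr (Or.inr (Or.inr (Or.inr ⟨l, rfl⟩)))))) (hΔ' l)

/-- **Closed subvarieties on which a proper correspondence is generically finite are strongly of log
general type**, for a point of the correspondence over an extension of degree at most `ρ`. -/
theorem strong_core (hW : W.Proper) {E : Type} [Field E] [Algebra ℂ E]
    {z : Fin (N + 1) → E} {w : ℕ} (hz : M.Sub z w) {K'' : Type} [Field K'']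
    [Algebra ℂ K''] [Algebra E K''] [IsScalarTower ℂ E K''] [FiniteDimensional E K''] {ρ μ : ℕ}
    (hρ : Module.finrank E K'' ≤ ρ) {x : Fin (X.n + 1) → K''} {s : Fin r → Fin 2 → K''}
    {y : Fin r → K''} (hx : W.Mem (fun i => algebraMap E K'' (z i)) x s y)
    (halg : ∀ i j, z j ≠ 0 → IsAlgebraic (ptField x s) (algebraMap E K'' (z i / z j)))
    (hΔ : ∀ l, MvPolynomial.aeval x (F l).form.Δ ≠ 0)
    (hb : ∀ l, 2 * ρ * (F l).c + 2 ≤ (F l).p * (F l).c) (hμ : 1 ≤ μ) (hμa : ∀ l, (F l).a ≤ μ)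
    (hd : 2 * X.m + 1 + (2 * ρ - 1) * μ + ∑ l, ((F l).form.δ - ((F l).p - 1) * (F l).a) ≤
      X.size + 1) : M.StronglyLogGT z := by
  obtain ⟨G, hG, hzG, h⟩ := spread_pt hz hx halg hΔ
  refine ⟨G, hG, hzG, fun E₁ _ _ w₁ z₁ hw₁ hz₁ hzz hzG₁ => ?_⟩
  obtain ⟨K₁, i1, i2, i3, i4, i5, x₁, s₁, y₁, hrk, hx₁, halg₁, hΔ₁⟩ :=
    h E₁ w₁ z₁ hz₁ hzz hzG₁
  have h1 := le_max_left 1 (w₁ - r)
  exact log_core hW hz₁ (hrk.trans hρ) hx₁ halg₁ hΔ₁ hb hμ hμa (by omega)

end

end Pool.Agent.L5helper25.PS
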